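import Pool.Agent.W76.MO.Asm6

/-!
# MP_768c9c_nt: completely multiplicative extensions of functions on the primes
-/

set_option autoImplicit false

namespace Pool.Agent.H421.CMO

open Finset
open scoped Classical
open Pool.Agent.W76.MO

/-- the completely multiplicative function with values `v p` at the primes -/
noncomputable def cm (v : ℕ → ℝ) (n : ℕ) : ℝ := n.factorization.prod fun p k => v p ^ k

lemma cm_zero (v : ℕ → ℝ) : cm v 0 = 1 := by simp [cm]

lemma cm_one (v : ℕ → ℝ) : cm v 1 = 1 := by simp [cm]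

lemma cm_mul (v : ℕ → ℝ) {m n : ℕ} (hm : m ≠ 0) (hn : n ≠ 0) :
    cm v (m * n) = cm v m * cm v n := by
  unfold cm
  rw [Nat.factorization_mul hm hn, Finsupp.prod_add_index']
  · intro p; simp
  · intro p a b; exact pow_add _ _ _

lemma cm_prime (v : ℕ → ℝ) {p : ℕ} (hp : p.Prime) : cm v p = v p := by
  unfold cm
  rw [hp.factorization]
  simp

lemma cm_prime_mul (v : ℕ → ℝ) {p m : ℕ} (hp : p.Prime) (hm : m ≠ 0) :
    cm v (p * m) = v p * cm v m := by
  rw [cm_mul v hp.ne_zero hm, cm_prime v hp]

lemma cm_congr {v w : ℕ → ℝ} {n : ℕ} (h : ∀ p ∈ n.primeFactors, v p = w p) :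
    cm v n = cm w n := by
  unfold cm Finsupp.prod
  refine prod_congr rfl fun p hp => ?_
  rw [Nat.support_factorization] at hp
  beta_reduce
  rw [h p hp]

lemma cm_nonneg {v : ℕ → ℝ} (h : ∀ p : ℕ, p.Prime → 0 ≤ v p) (n : ℕ) : 0 ≤ cm v n := by
  unfold cm Finsupp.prod
  refine prod_nonneg fun p hp => ?_
  rw [Nat.support_factorization] at hp
  exact pow_nonneg (h p (Nat.prime_of_mem_primeFactors hp)) _

lemma cm_le_cm {v w : ℕ → ℝ} (h : ∀ p : ℕ, p.Prime → 0 ≤ v p)
    (h' : ∀ p : ℕ, p.Prime → v p ≤ w p) (n : ℕ) : cm v n ≤ cm w n := by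
  unfold cm Finsupp.prod
  refine prod_le_prod (fun p hp => ?_) fun p hp => ?_
  · rw [Nat.support_factorization] at hp
    exact pow_nonneg (h p (Nat.prime_of_mem_primeFactors hp)) _
  · rw [Nat.support_factorization] at hp
    have hp' := Nat.prime_of_mem_primeFactors hp
    exact pow_le_pow_left₀ (h p hp') (h' p hp') _

lemma one_le_cm {v : ℕ → ℝ} (h : ∀ p : ℕ, p.Prime → 1 ≤ v p) (n : ℕ) : 1 ≤ cm v n := by
  unfold cm Finsupp.prod
  have h1 : ∏ p ∈ n.factorization.support, (1 : ℝ) ≤
      ∏ p ∈ n.factorization.support, (fun p k => v p ^ k) p (n.factorization p) := by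
    refine prod_le_prod (fun p _ => zero_le_one) fun p hp => ?_
    rw [Nat.support_factorization] at hp
    exact one_le_pow₀ (h p (Nat.prime_of_mem_primeFactors hp))
  rwa [prod_const_one] at h1

lemma cm_mul_fun (u v : ℕ → ℝ) (n : ℕ) : cm (fun p => u p * v p) n = cm u n * cm v n := by
  unfold cm Finsupp.prod
  rw [← prod_mul_distrib]
  exact prod_congr rfl fun p _ => mul_pow _ _ _

lemma cm_abs (v : ℕ → ℝ) (n : ℕ) : |cm v n| = cm (fun p => |v p|) n := by
  unfold cm Finsupp.prod
  rw [abs_prod]
  exact prod_congr rfl fun p _ => abs_pow _ _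

lemma cm_id {n : ℕ} (hn : n ≠ 0) : cm (fun p => (p : ℝ)) n = n := by
  have h := Nat.prod_factorization_pow_eq_self hn
  conv_rhs => rw [← h]
  unfold cm Finsupp.prod
  push_cast
  rfl

lemma cm_inv {n : ℕ} (hn : n ≠ 0) : cm (fun p => 1 / (p : ℝ)) n = 1 / n := by
  have h := cm_id hn
  have h2 : cm (fun p => 1 / (p : ℝ)) n * cm (fun p => (p : ℝ)) n = 1 := by
    rw [← cm_mul_fun]
    have h3 : cm (fun p => 1 / (p : ℝ) * p) n = cm (fun _ => 1) n := by
      apply cm_congr
      intro p hp
      have : (p : ℝ) ≠ 0 := by exact_mod_cast (Nat.prime_of_mem_primeFactors hp).ne_zero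
      field_simp
    rw [h3]
    unfold cm Finsupp.prod
    simp
  rw [h] at h2
  have hn' : (n : ℝ) ≠ 0 := by exact_mod_cast hn
  field_simp
  linarith

lemma cm_rpow {θ : ℝ} {n : ℕ} (hn : n ≠ 0) :
    cm (fun p => (p : ℝ) ^ θ) n = (n : ℝ) ^ θ := by
  have h : (n : ℝ) = ∏ p ∈ n.primeFactors, (p : ℝ) ^ (n.factorization p) := by
    conv_lhs => rw [← Nat.prod_factorization_pow_eq_self hn]
    unfold Finsupp.prod
    push_cast
    rfl
  conv_rhs => rw [h]
  rw [← Real.finsetProd_rpow _ _ (fun p _ => by positivity)]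
  unfold cm Finsupp.prod
  rw [Nat.support_factorization]
  refine prod_congr rfl fun p _ => ?_
  beta_reduce
  rw [← Real.rpow_natCast, ← Real.rpow_natCast, ← Real.rpow_mul (Nat.cast_nonneg p),
    ← Real.rpow_mul (Nat.cast_nonneg p), mul_comm]

lemma cm_le_rpow {v : ℕ → ℝ} {θ : ℝ} (h : ∀ p : ℕ, p.Prime → 0 ≤ v p)
    (h' : ∀ p : ℕ, p.Prime → v p ≤ (p : ℝ) ^ θ) {n : ℕ} (hn : n ≠ 0) :
    cm v n ≤ (n : ℝ) ^ θ := by
  rw [← cm_rpow hn]
  exact cm_le_cm h h' n

lemma cm_squarefree (v : ℕ → ℝ) {n : ℕ} (hn : Squarefree n) :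
    cm v n = ∏ p ∈ n.primeFactors, v p := by
  unfold cm Finsupp.prod
  rw [Nat.support_factorization]
  refine prod_congr rfl fun p hp => ?_
  have h1 := hn.natFactorization_le_one p
  have h2 : n.factorization p ≠ 0 := by
    rw [← Nat.support_factorization, Finsupp.mem_support_iff] at hp
    exact hp
  have h3 : n.factorization p = 1 := by omega
  beta_reduce
  rw [h3, pow_one]

/-- scaling -/
lemma cm_scale (g : ℕ → ℝ) {n : ℕ} (hn : n ≠ 0) :
    cm (fun p => 1 / (p : ℝ) + g p) n = cm (fun p => 1 + p * g p) n / n := by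
  have h : cm (fun p => 1 / (p : ℝ) + g p) n =
      cm (fun p => (1 / (p : ℝ)) * (1 + p * g p)) n := by
    apply cm_congr
    intro p hp
    have : (p : ℝ) ≠ 0 := by exact_mod_cast (Nat.prime_of_mem_primeFactors hp).ne_zero
    field_simp
  rw [h, cm_mul_fun, cm_inv hn]
  ring

/-- perturbation of a completely multiplicative function -/
lemma perturb_cm (x g g' G : ℕ → ℝ) (ε : ℝ) (hx : ∀ p, 0 ≤ x p)
    (hε : 0 ≤ ε) (hg : ∀ p, |g p| ≤ G p) (hg' : ∀ p, |g' p| ≤ G p)
    (hgg : ∀ p, |g p - g' p| ≤ ε * G p) (n : ℕ) :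
    |cm (fun p => g p - x p) n| ≤ cm (fun p => x p + G p) n ∧
    |cm (fun p => g p - x p) n - cm (fun p => g' p - x p) n| ≤
      ε * (cm (fun p => x p + 2 * G p) n - cm (fun p => x p + G p) n) ∧
    cm (fun p => x p + G p) n ≤ cm (fun p => x p + 2 * G p) n := by
  have hG : ∀ p, 0 ≤ G p := fun p => (abs_nonneg _).trans (hg p)
  have hb : ∀ p, |g p - x p| ≤ x p + G p := fun p => by
    have h1 := abs_sub (g p) (x p)
    rw [abs_of_nonneg (hx p)] at h1
    linarith [hg p]
  have hb' : ∀ p, |g' p - x p| ≤ x p + G p := fun p => by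
    have h1 := abs_sub (g' p) (x p)
    rw [abs_of_nonneg (hx p)] at h1
    linarith [hg' p]
  have hmono : ∀ n, cm (fun p => x p + G p) n ≤ cm (fun p => x p + 2 * G p) n := fun n =>
    cm_le_cm (fun p _ => add_nonneg (hx p) (hG p)) (fun p _ => by linarith [hG p]) n
  refine ⟨?_, ?_, hmono n⟩
  · rw [cm_abs]
    exact cm_le_cm (fun p _ => abs_nonneg _) (fun p _ => hb p) n
  · induction n using induction_on_primes with
    | zero => simp [cm_zero]
    | one => simp [cm_one]
    | prime_mul p m hp ih =>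
      rcases Nat.eq_zero_or_pos m with hm | hm
      · subst hm
        rw [mul_zero]
        simp [cm_zero]
      have hm0 : m ≠ 0 := hm.ne'
      rw [cm_prime_mul _ hp hm0, cm_prime_mul _ hp hm0, cm_prime_mul _ hp hm0,
        cm_prime_mul _ hp hm0]
      have h1 : |cm (fun p => g p - x p) m| ≤ cm (fun p => x p + G p) m := by
        rw [cm_abs]
        exact cm_le_cm (fun p _ => abs_nonneg _) (fun p _ => hb p) m
      have h3 := hmono m
      set A := cm (fun p => g p - x p) m
      set A' := cm (fun p => g' p - x p) m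
      set B := cm (fun p => x p + G p) m
      set D := cm (fun p => x p + 2 * G p) m
      have hB0 : 0 ≤ B := (abs_nonneg _).trans h1
      have hxa : 0 ≤ x p + G p := add_nonneg (hx p) (hG p)
      have e : (g p - x p) * A - (g' p - x p) * A' = (g p - g' p) * A + (g' p - x p) * (A - A') := by
        ring
      rw [e]
      refine (abs_add_le _ _).trans ?_
      rw [abs_mul, abs_mul]
      have t1 : |g p - g' p| * |A| ≤ (ε * G p) * B :=
        mul_le_mul (hgg p) h1 (abs_nonneg _) (mul_nonneg hε (hG p))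
      have t2 : |g' p - x p| * |A - A'| ≤ (x p + G p) * (ε * (D - B)) :=
        mul_le_mul (hb' p) ih (abs_nonneg _) hxa
      have t3 : 0 ≤ ε * (G p * (D - B)) := mul_nonneg hε (mul_nonneg (hG p) (by linarith))
      nlinarith

/-- splitting off the large perturbations -/
lemma split_cm (u s : ℕ → ℝ) (hu : ∀ p, 0 ≤ u p) (hs : ∀ p, 0 ≤ s p) (n : ℕ) (hn : n ≠ 0)
    (P : Finset ℕ) (hP : n.primeFactors ⊆ P) :
    cm (fun p => 1 + 2 * (u p + s p)) n ≤ cm (fun p => 1 + 2 * s p) n +
      2 * ∑ p ∈ P, (n.factorization p : ℝ) * (u p * cm (fun p => 1 + 2 * (u p + s p)) (n / p)) := by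
  induction n using induction_on_primes with
  | zero => exact absurd rfl hn
  | one => simp [cm_one]
  | prime_mul q m hq ih =>
    have hm0 : m ≠ 0 := right_ne_zero_of_mul hn
    have hP' : m.primeFactors ⊆ P := (Nat.primeFactors_mono (Dvd.intro_left q rfl) hn).trans hP
    have hqP : q ∈ P := hP (Nat.mem_primeFactors.2 ⟨hq, Dvd.intro m rfl, hn⟩)
    have ih := ih hm0 hP'
    rw [cm_prime_mul _ hq hm0, cm_prime_mul _ hq hm0]
    set V : ℕ → ℝ := fun p => 1 + 2 * (u p + s p) with hV
    have hV0 : ∀ k, 0 ≤ cm V k := fun k => cm_nonneg (fun p _ => by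
      simp only [hV]
      have := hu p
      have := hs p
      positivity) k
    -- the sum for `q * m`
    have hsum : V q * ∑ p ∈ P, (m.factorization p : ℝ) * (u p * cm V (m / p)) +
        u q * cm V m ≤ ∑ p ∈ P, ((q * m).factorization p : ℝ) * (u p * cm V (q * m / p)) := by
      have h1 : ∀ p ∈ P, ((q * m).factorization p : ℝ) * (u p * cm V (q * m / p)) =
          V q * ((m.factorization p : ℝ) * (u p * cm V (m / p))) +
            (if p = q then u q * cm V m else 0) := by
        intro p _
        have h2 : (q * m).factorization p = (if p = q then 1 else 0) + m.factorization p := by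
          rw [Nat.factorization_mul hq.ne_zero hm0, Finsupp.add_apply, hq.factorization,
            Finsupp.single_apply]
          simp only [eq_comm]
        have h3 : (m.factorization p : ℝ) * (u p * cm V (q * m / p)) =
            V q * ((m.factorization p : ℝ) * (u p * cm V (m / p))) := by
          by_cases h4 : m.factorization p = 0
          · rw [h4]; simp
          · have h5 : p ∈ m.primeFactors := by
              rw [← Nat.support_factorization, Finsupp.mem_support_iff]
              exact h4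
            have h6 := Nat.dvd_of_mem_primeFactors h5
            have hpp := Nat.prime_of_mem_primeFactors h5
            have h7 : q * m / p = q * (m / p) := Nat.mul_div_assoc q h6
            have h8 : m / p ≠ 0 := by
              have := Nat.div_pos (Nat.le_of_dvd (Nat.pos_of_ne_zero hm0) h6) hpp.pos
              omega
            rw [h7, cm_prime_mul _ hq h8]
            ring
        rw [h2]
        push_cast
        rw [add_mul, h3]
        by_cases h9 : p = q
        · subst h9
          rw [if_pos rfl, if_pos rfl, Nat.mul_div_cancel_left m hq.pos]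
          ring
        · rw [if_neg h9, if_neg h9]
          push_cast
          ring
      rw [sum_congr rfl h1, sum_add_distrib, ← mul_sum, sum_ite_eq' P q, if_pos hqP]
    have hVq : V q = (1 + 2 * s q) + 2 * u q := by simp only [hV]; ring
    have hS0 : 0 ≤ ∑ p ∈ P, (m.factorization p : ℝ) * (u p * cm V (m / p)) :=
      sum_nonneg fun p _ => mul_nonneg (Nat.cast_nonneg _) (mul_nonneg (hu p) (hV0 _))
    set T := ∑ p ∈ P, (m.factorization p : ℝ) * (u p * cm V (m / p)) with hT
    set C := cm (fun p => 1 + 2 * s p) m with hC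
    have h1 : V q * cm V m ≤ (1 + 2 * s q) * (C + 2 * T) + 2 * (u q * cm V m) := by
      rw [hVq]
      have : (1 + 2 * s q) * cm V m ≤ (1 + 2 * s q) * (C + 2 * T) :=
        mul_le_mul_of_nonneg_left ih (by have := hs q; positivity)
      nlinarith
    have h2 : (1 + 2 * s q) * T ≤ V q * T := by
      apply mul_le_mul_of_nonneg_right _ hS0
      rw [hVq]
      linarith [hu q]
    nlinarith

end Pool.Agent.H421.CMO
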