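import Pool.Agent.H421_CMO.Cm
import Pool.Agent.W280.MO.ES
import Pool.Agent.W640.MO.H1

/-!
# MP_768c9c_nt: the complete Euler product sum is small
-/

set_option autoImplicit false

namespace Pool.Agent.H421.CMO

open Finset
open scoped Classical
open Pool.Agent.W76.MO

/-- numbers `≤ M` with all prime factors in `P` -/
noncomputable def FN (P : Finset ℕ) (M : ℕ) : Finset ℕ :=
  (Icc 1 M).filter (fun t => ∀ p : ℕ, p.Prime → p ∣ t → p ∈ P)

lemma euler (a : ℕ → ℝ) (ha : ∀ p, 0 ≤ a p) (M : ℕ) (P : Finset ℕ) (hP : ∀ p ∈ P, p.Prime)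
    (h1 : ∀ p ∈ P, a p < 1) : ∑ t ∈ FN P M, cm a t ≤ ∏ p ∈ P, (1 - a p)⁻¹ := by
  induction P using Finset.induction_on with
  | empty =>
    rw [prod_empty]
    have hsub : FN ∅ M ⊆ {1} := by
      intro t ht
      unfold FN at ht
      rw [mem_filter, mem_Icc] at ht
      rw [mem_singleton]
      by_contra h
      obtain ⟨p, hp, hpt⟩ := Nat.exists_prime_and_dvd h
      exact absurd (ht.2 p hp hpt) (by simp)
    refine (sum_le_sum_of_subset_of_nonneg hsub fun t _ _ => cm_nonneg (fun p _ => ha p) t).trans ?_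
    rw [sum_singleton, cm_one]
  | insert q P hq ih =>
    have hqp : q.Prime := hP q (mem_insert_self q P)
    have ih := ih (fun p hp => hP p (mem_insert_of_mem hp)) (fun p hp => h1 p (mem_insert_of_mem hp))
    have hq1 : a q < 1 := h1 q (mem_insert_self q P)
    have hq0 := ha q
    rw [prod_insert hq]
    set S := ∑ t ∈ FN (insert q P) M, cm a t with hS
    have hsplit : S ≤ ∑ t ∈ FN P M, cm a t + a q * S := by
      have hS' : ∑ t ∈ (FN (insert q P) M).filter (fun t => ¬ q ∣ t), cm a t +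
            ∑ t ∈ (FN (insert q P) M).filter (fun t => q ∣ t), cm a t = S := by
        have h := sum_filter_add_sum_filter_not (FN (insert q P) M) (fun t => ¬ q ∣ t) (cm a)
        simp only [not_not] at h
        exact h
      rw [← hS']
      refine add_le_add ?_ ?_
      · apply sum_le_sum_of_subset_of_nonneg
        · intro t ht
          unfold FN at ht ⊢
          rw [mem_filter, mem_filter] at ht
          rw [mem_filter]
          refine ⟨ht.1.1, fun p hp hpt => ?_⟩
          have h2 := ht.1.2 p hp hpt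
          rw [mem_insert] at h2
          rcases h2 with h2 | h2
          · subst h2
            exact absurd hpt ht.2
          · exact h2
        · intro t _ _
          exact cm_nonneg (fun p _ => ha p) t
      · have hterm : ∀ t ∈ (FN (insert q P) M).filter (fun t => q ∣ t),
            cm a t = a q * cm a (t / q) := by
          intro t ht
          unfold FN at ht
          rw [mem_filter, mem_filter, mem_Icc] at ht
          obtain ⟨m, rfl⟩ := ht.2
          have hm : m ≠ 0 := by
            rintro rfl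
            have := ht.1.1.1
            simp at this
          rw [Nat.mul_div_cancel_left m hqp.pos, cm_prime_mul a hqp hm]
        rw [hS', sum_congr rfl hterm, ← mul_sum]
        apply mul_le_mul_of_nonneg_left _ hq0
        have hinj : Set.InjOn (fun t : ℕ => t / q)
            ((FN (insert q P) M).filter (fun t => q ∣ t) : Finset ℕ) := by
          intro t ht t' ht' h
          have h2 := (mem_filter.1 (mem_coe.1 ht)).2
          have h3 := (mem_filter.1 (mem_coe.1 ht')).2
          simp only at h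
          rw [← Nat.div_mul_cancel h2, ← Nat.div_mul_cancel h3, h]
        have e : ∑ t ∈ (FN (insert q P) M).filter (fun t => q ∣ t), cm a (t / q) =
            ∑ y ∈ ((FN (insert q P) M).filter (fun t => q ∣ t)).image (fun t : ℕ => t / q),
              cm a y := by
          rw [sum_image hinj]
        rw [e]
        apply sum_le_sum_of_subset_of_nonneg
        · intro y hy
          rw [mem_image] at hy
          obtain ⟨t, ht, rfl⟩ := hy
          unfold FN at ht ⊢
          rw [mem_filter, mem_filter, mem_Icc] at ht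
          rw [mem_filter, mem_Icc]
          obtain ⟨m, rfl⟩ := ht.2
          have hm : m ≠ 0 := by
            rintro rfl
            have := ht.1.1.1
            simp at this
          rw [Nat.mul_div_cancel_left m hqp.pos]
          refine ⟨⟨by omega, ?_⟩, fun p hp hpm => ht.1.2 p hp (hpm.mul_left q)⟩
          refine le_trans ?_ ht.1.1.2
          exact Nat.le_mul_of_pos_left m hqp.pos
        · intro t _ _
          exact cm_nonneg (fun p _ => ha p) t
    have h2 : (1 - a q) * S ≤ ∏ p ∈ P, (1 - a p)⁻¹ := by nlinarith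
    have h3 : 0 < 1 - a q := by linarith
    rw [inv_mul_eq_div, le_div_iff₀ h3]
    linarith

variable (E : Env)

/-- `∏_{p^k ∥ n} (1 + 2 p g(p))^k` -/
noncomputable def E2c (j n : ℕ) : ℝ := cm (fun p => 1 + 2 * (p * E.g j p)) n

lemma E2c_nonneg {j : ℕ} (h1 : ∀ p, 0 ≤ E.gu j p) (h2 : ∀ p, 0 ≤ E.gh j p) (n : ℕ) :
    0 ≤ E2c E j n := by
  apply cm_nonneg
  intro p _
  have : 0 ≤ E.g j p := add_nonneg (h1 p) (h2 p)
  positivity

/-- (ES) for all rough numbers -/
theorem ESc (hGB : E.GBounds) : ∀ η : ℝ, 0 < η → ∃ R₀ : ℕ, ∀ R : ℕ, R₀ ≤ R → ∃ J : ℕ, ∀ j : ℕ,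
    J ≤ j → ∀ M : ℕ, ∑ t ∈ (Icc 2 M).filter (fun t => Rough R t),
      E2c E j t / t * (t : ℝ) ^ (-E.δ / 2) ≤ η := by
  intro η hη
  obtain ⟨J, hJ1, hJ⟩ := hGB
  set ε := min 1 η / 8 with hε
  have hm : 0 < min 1 η := lt_min one_pos hη
  have hε0 : 0 < ε := by positivity
  obtain ⟨R₀, hR₀⟩ := Pool.Agent.W280.MO.tail_small E.hδ hε0
  refine ⟨R₀, fun R hR => ?_⟩
  obtain ⟨J', hJ'⟩ := exists_nat_gt (4 / ε)
  refine ⟨max J J', fun j hj M => ?_⟩
  obtain ⟨-, hgu, hgh, -, -, -, -, hsh, hsu⟩ := hJ j ((le_max_left _ _).trans hj)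
  have hj0 : (0 : ℝ) < j := by
    have : 1 ≤ j := hJ1.trans ((le_max_left _ _).trans hj)
    exact_mod_cast this
  have hjε : 4 / (j : ℝ) ≤ ε := by
    have h1 : (J' : ℝ) ≤ j := by exact_mod_cast (le_max_right _ _).trans hj
    have h2 : 4 / ε < j := hJ'.trans_le h1
    rw [div_lt_iff₀ hε0] at h2
    rw [div_le_iff₀ hj0]
    linarith
  set a : ℕ → ℝ := fun p => (1 + 2 * (p * E.g j p)) * (p : ℝ) ^ (-1 - E.δ / 2) with ha
  have hg0 : ∀ p, 0 ≤ E.g j p := fun p => add_nonneg (hgu p) (hgh p)
  have ha0 : ∀ p, 0 ≤ a p := fun p =>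
    mul_nonneg (by have := hg0 p; positivity) (Real.rpow_nonneg (by positivity) _)
  set P : Finset ℕ := (Icc R M).filter Nat.Prime with hP
  -- the sum of the `a p`
  have hsum : ∑ p ∈ P, a p ≤ 2 * ε := by
    have h1 : ∑ p ∈ P, (p : ℝ) ^ (-1 - E.δ / 2) ≤ ε := hR₀ P (fun p hp => by
      rw [hP, mem_filter, mem_Icc] at hp
      exact hR.trans hp.1.1)
    have h2 : ∀ p ∈ P, a p ≤ (p : ℝ) ^ (-1 - E.δ / 2) + 2 * (E.gu j p * (p : ℝ) ^ (-E.δ / 2)) +
        2 * ((p * E.gh j p) * (p : ℝ) ^ (-1 + E.τ / 4)) := by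
      intro p hp
      rw [hP, mem_filter] at hp
      have hp1 : (1 : ℝ) ≤ p := by exact_mod_cast hp.2.one_lt.le
      have hp0 : (0 : ℝ) < p := by linarith
      have e1 : (p : ℝ) * (p : ℝ) ^ (-1 - E.δ / 2) = (p : ℝ) ^ (-E.δ / 2) := by
        nth_rewrite 1 [← Real.rpow_one (p : ℝ)]
        rw [← Real.rpow_add hp0]
        congr 1; ring
      have e2 : (p : ℝ) ^ (-1 - E.δ / 2) ≤ (p : ℝ) ^ (-1 + E.τ / 4) :=
        Real.rpow_le_rpow_of_exponent_le hp1 (by have := E.hδ; have := E.hτ; linarith)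
      have e3 : a p = (p : ℝ) ^ (-1 - E.δ / 2) +
          2 * (E.gu j p * ((p : ℝ) * (p : ℝ) ^ (-1 - E.δ / 2))) +
          2 * ((p * E.gh j p) * (p : ℝ) ^ (-1 - E.δ / 2)) := by
        simp only [ha, Env.g]; ring
      rw [e3, e1]
      have e4 : (p * E.gh j p) * (p : ℝ) ^ (-1 - E.δ / 2) ≤
          (p * E.gh j p) * (p : ℝ) ^ (-1 + E.τ / 4) :=
        mul_le_mul_of_nonneg_left e2 (mul_nonneg hp0.le (hgh p))
      linarith
    refine (Finset.sum_le_sum h2).trans ?_
    rw [Finset.sum_add_distrib, Finset.sum_add_distrib, ← Finset.mul_sum, ← Finset.mul_sum]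
    have h3 := hsu P
    have h4 := hsh P
    have h5 : 4 / (j : ℝ) = 4 * (1 / j) := by ring
    linarith
  have hmin1 : min 1 η ≤ 1 := min_le_left _ _
  have hmin2 : min 1 η ≤ η := min_le_right _ _
  have hPp : ∀ p ∈ P, p.Prime := fun p hp => (mem_filter.1 hp).2
  have hap : ∀ p ∈ P, a p ≤ 1 / 2 := by
    intro p hp
    have h1 : a p ≤ ∑ p ∈ P, a p := single_le_sum (fun p _ => ha0 p) hp
    have : 2 * ε ≤ 1 / 4 := by rw [hε]; linarith
    linarith
  have hterm : ∀ t : ℕ, t ≠ 0 → E2c E j t / t * (t : ℝ) ^ (-E.δ / 2) = cm a t := by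
    intro t ht
    have ht0 : (0 : ℝ) < t := by exact_mod_cast Nat.pos_of_ne_zero ht
    have e1 : cm a t = E2c E j t * (t : ℝ) ^ (-1 - E.δ / 2) := by
      rw [← cm_rpow ht]
      exact cm_mul_fun _ _ t
    have e3 : (t : ℝ) ^ (-1 - E.δ / 2) = (t : ℝ)⁻¹ * (t : ℝ) ^ (-E.δ / 2) := by
      rw [← Real.rpow_neg_one, ← Real.rpow_add ht0]
      congr 1; ring
    rw [e1, e3]
    ring
  have hle : ∑ t ∈ (Icc 2 M).filter (fun t => Rough R t),
      E2c E j t / t * (t : ℝ) ^ (-E.δ / 2) ≤ ∏ p ∈ P, (1 - a p)⁻¹ - 1 := by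
    rcases Nat.lt_or_ge M 1 with hM | hM
    · have h0 : (Icc 2 M).filter (fun t => Rough R t) = ∅ := by
        have : Icc 2 M = ∅ := by rw [Icc_eq_empty_iff]; omega
        rw [this, filter_empty]
      rw [h0, sum_empty]
      have h1 : P = ∅ ∨ 1 ≤ ∏ p ∈ P, (1 - a p)⁻¹ := by
        right
        have h2 : ∏ p ∈ P, (1 : ℝ) ≤ ∏ p ∈ P, (1 - a p)⁻¹ := by
          apply prod_le_prod (fun _ _ => zero_le_one)
          intro p hp
          rw [one_le_inv₀ (by have := hap p hp; linarith)]
          linarith [ha0 p]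
        rwa [prod_const_one] at h2
      rcases h1 with h1 | h1
      · rw [h1]; simp
      · linarith
    · have h1 := euler a ha0 M P hPp (fun p hp => by have := hap p hp; linarith)
      have h2 : ∑ t ∈ (Icc 2 M).filter (fun t => Rough R t),
          E2c E j t / t * (t : ℝ) ^ (-E.δ / 2) + 1 ≤ ∑ t ∈ FN P M, cm a t := by
        have h3 : ∑ t ∈ (Icc 2 M).filter (fun t => Rough R t),
            E2c E j t / t * (t : ℝ) ^ (-E.δ / 2) =
            ∑ t ∈ (Icc 2 M).filter (fun t => Rough R t), cm a t := by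
          refine sum_congr rfl fun t ht => ?_
          rw [mem_filter, mem_Icc] at ht
          exact hterm t (by omega)
        have h4 : (1 : ℕ) ∉ (Icc 2 M).filter (fun t => Rough R t) := by
          rw [mem_filter, mem_Icc]; omega
        have h5 : ∑ t ∈ (Icc 2 M).filter (fun t => Rough R t), cm a t + 1 =
            ∑ t ∈ insert 1 ((Icc 2 M).filter (fun t => Rough R t)), cm a t := by
          rw [sum_insert h4, cm_one]; ring
        rw [h3, h5]
        apply sum_le_sum_of_subset_of_nonneg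
        · intro t ht
          rw [mem_insert, mem_filter, mem_Icc] at ht
          unfold FN
          rw [mem_filter, mem_Icc]
          rcases ht with rfl | ht
          · refine ⟨⟨le_rfl, hM⟩, fun p hp hd => ?_⟩
            exact absurd (Nat.dvd_one.1 hd) hp.one_lt.ne'
          · refine ⟨⟨by omega, ht.1.2⟩, fun p hp hd => ?_⟩
            rw [hP, mem_filter, mem_Icc]
            refine ⟨⟨?_, (Nat.le_of_dvd (by omega) hd).trans ht.1.2⟩, hp⟩
            have := ht.2 p hp hd
            exact_mod_cast this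
        · intro t _ _
          exact cm_nonneg (fun p _ => ha0 p) t
      linarith
  refine hle.trans ?_
  have hs0 : 0 ≤ ∑ p ∈ P, a p := Finset.sum_nonneg fun p _ => ha0 p
  have h4 : ∏ p ∈ P, (1 - a p)⁻¹ ≤ Real.exp (2 * ∑ p ∈ P, a p) := by
    rw [mul_sum, Real.exp_sum]
    refine Finset.prod_le_prod (fun p hp => ?_) (fun p hp => ?_)
    · have := hap p hp
      have : 0 < 1 - a p := by linarith
      positivity
    · have h1 := hap p hp
      have h2 := ha0 p
      have h3 := Real.add_one_le_exp (2 * a p)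
      refine le_trans ?_ h3
      rw [inv_le_iff_one_le_mul₀ (by linarith)]
      nlinarith
  have hs1 : 2 * ∑ p ∈ P, a p ≤ 1 := by
    have : 2 * ε ≤ 1 / 4 := by rw [hε]; linarith
    linarith
  have h5 := Real.abs_exp_sub_one_le (x := 2 * ∑ p ∈ P, a p)
    (by rw [abs_of_nonneg (by linarith)]; exact hs1)
  rw [abs_of_nonneg (show (0 : ℝ) ≤ 2 * ∑ p ∈ P, a p by linarith)] at h5
  have h6 := (le_abs_self _).trans h5
  have h7 : 2 * (2 * (2 * ε)) ≤ η := by rw [hε]; linarith
  linarith

end Pool.Agent.H421.CMO
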