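import Mathlib

/-!
# A fixed point lemma in `ℓ^∞`
-/

set_option autoImplicit false

namespace Pool.Agent.H421.CMO

open Filter Topology

/-- solving `F z = 0` when `F` is close to the diagonal map `z ↦ (w i * z i)` -/
theorem solve {ι : Type} (F : (ι → ℝ) → ι → ℝ) (w : ι → ℝ) (hw : ∀ i, 0 < w i)
    (h0 : ∀ i, |F 0 i| ≤ w i / 2)
    (hL : ∀ (z z' : ι → ℝ) (ε : ℝ), (∀ i, |z i| ≤ 1) → (∀ i, |z' i| ≤ 1) →
      (∀ i, |z i - z' i| ≤ ε) → ∀ i, |F z i - F z' i - w i * (z i - z' i)| ≤ ε * (w i / 2)) :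
    ∃ z : ι → ℝ, (∀ i, |z i| ≤ 1) ∧ ∀ i, F z i = 0 := by
  -- the iteration
  let Φ : (ι → ℝ) → (ι → ℝ) := fun z i => z i - F z i / w i
  have hΦ : ∀ (z z' : ι → ℝ) (ε : ℝ), (∀ i, |z i| ≤ 1) → (∀ i, |z' i| ≤ 1) →
      (∀ i, |z i - z' i| ≤ ε) → ∀ i, |Φ z i - Φ z' i| ≤ ε / 2 := by
    intro z z' ε hz hz' hzz i
    have h := hL z z' ε hz hz' hzz i
    have hwi := hw i
    have e : Φ z i - Φ z' i = -(F z i - F z' i - w i * (z i - z' i)) / w i := by
      simp only [Φ]
      field_simp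
      ring
    rw [e, abs_div, abs_neg, abs_of_pos hwi, div_le_iff₀ hwi]
    linarith
  have hΦ0 : ∀ i, |Φ 0 i| ≤ 1 / 2 := by
    intro i
    have hwi := hw i
    have e : Φ 0 i = -(F 0 i) / w i := by
      simp only [Φ, Pi.zero_apply]
      ring
    rw [e, abs_div, abs_neg, abs_of_pos hwi, div_le_iff₀ hwi]
    linarith [h0 i]
  have hball : ∀ z : ι → ℝ, (∀ i, |z i| ≤ 1) → ∀ i, |Φ z i| ≤ 1 := by
    intro z hz i
    have h1 := hΦ z 0 1 hz (fun i => by simp) (fun i => by simpa using hz i) i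
    have h2 := hΦ0 i
    calc |Φ z i| = |(Φ z i - Φ 0 i) + Φ 0 i| := by ring_nf
      _ ≤ |Φ z i - Φ 0 i| + |Φ 0 i| := abs_add_le _ _
      _ ≤ 1 := by linarith
  -- the sequence
  let y : ℕ → (ι → ℝ) := fun n => Φ^[n] 0
  have hy_succ : ∀ n, y (n + 1) = Φ (y n) := fun n => Function.iterate_succ_apply' Φ n 0
  have hy1 : ∀ n i, |y n i| ≤ 1 := by
    intro n
    induction n with
    | zero => intro i; simp [y]
    | succ n ih => intro i; rw [hy_succ]; exact hball _ ih i
  have hstep : ∀ n i, |y (n + 1) i - y n i| ≤ (1 / 2 : ℝ) ^ n := by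
    intro n
    induction n with
    | zero =>
      intro i
      rw [hy_succ]
      have : y 0 = 0 := rfl
      rw [this]
      simp only [Pi.zero_apply, sub_zero, pow_zero]
      linarith [hΦ0 i]
    | succ n ih =>
      intro i
      rw [hy_succ (n + 1)]
      nth_rewrite 2 [hy_succ n]
      have := hΦ (y (n + 1)) (y n) ((1 / 2 : ℝ) ^ n) (hy1 _) (hy1 _) ih i
      rw [pow_succ]
      linarith
  have hcau : ∀ i, CauchySeq (fun n => y n i) := by
    intro i
    refine cauchySeq_of_le_geometric (1 / 2 : ℝ) 1 (by norm_num) fun n => ?_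
    rw [Real.dist_eq, abs_sub_comm, one_mul]
    exact hstep n i
  choose z hz using fun i => cauchySeq_tendsto_of_complete (hcau i)
  have hz1 : ∀ i, |z i| ≤ 1 := fun i =>
    le_of_tendsto ((hz i).abs) (Eventually.of_forall fun n => hy1 n i)
  -- uniform distance
  have hdist : ∀ n i, |y n i - z i| ≤ (1 / 2 : ℝ) ^ n * 2 := by
    intro n i
    have h := dist_le_of_le_geometric_of_tendsto (1 / 2 : ℝ) 1 (by norm_num)
      (fun n => by rw [Real.dist_eq, abs_sub_comm, one_mul]; exact hstep n i) (hz i) n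
    rw [Real.dist_eq] at h
    refine h.trans (le_of_eq ?_)
    norm_num
    ring
  refine ⟨z, hz1, fun i => ?_⟩
  have hfix : Φ z i = z i := by
    have h1 : Tendsto (fun n => y (n + 1) i) atTop (𝓝 (z i)) := (hz i).comp (tendsto_add_atTop_nat 1)
    have h2 : Tendsto (fun n => y (n + 1) i) atTop (𝓝 (Φ z i)) := by
      rw [tendsto_iff_norm_sub_tendsto_zero]
      refine squeeze_zero (fun n => norm_nonneg _) (g := fun n => (1 / 2 : ℝ) ^ n * 2 / 2) ?_ ?_
      · intro n
        rw [hy_succ, Real.norm_eq_abs]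
        exact hΦ (y n) z _ (hy1 n) hz1 (hdist n) i
      · have h3 : Tendsto (fun n : ℕ => (1 / 2 : ℝ) ^ n) atTop (𝓝 0) :=
          tendsto_pow_atTop_nhds_zero_of_lt_one (by norm_num) (by norm_num)
        simpa using (h3.mul_const 2).div_const 2
    exact tendsto_nhds_unique h2 h1
  have hwi := hw i
  have : F z i / w i = 0 := by
    have : Φ z i = z i - F z i / w i := rfl
    linarith
  rcases div_eq_zero_iff.1 this with h | h
  · exact h
  · exact absurd h hwi.ne'

end Pool.Agent.H421.CMO
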