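import Pool.Agent.H421_CMO.Ns
import Pool.Agent.H421_CMO.Fix2

/-!
# MP_768c9c_nt: the completely multiplicative function, the first block
-/

set_option autoImplicit false

namespace Pool.Agent.H421.CMO

open Finset Filter Topology
open scoped Classical
open Pool.Agent.W76.MO

variable (E : Env)

/-- the function -/
noncomputable def fzc (j : ℕ) (z : ℕ × ℕ → ℝ) (n : ℕ) : ℝ := cm (fun p => E.gz j z p - 1 / (p : ℝ)) n

/-- the Lipschitz constant at `n` -/
noncomputable def tb (j n : ℕ) : ℝ :=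
  cm (fun p => 1 / (p : ℝ) + 2 * E.g j p) n - cm (fun p => 1 / (p : ℝ) + E.g j p) n

lemma fzc_eq (j n : ℕ) (z : ℕ × ℕ → ℝ) (hn : Squarefree n) : fzc E j z n = E.fz j z n := by
  unfold fzc Env.fz
  exact cm_squarefree _ hn

lemma fzc_bound (j n : ℕ) (z z' : ℕ × ℕ → ℝ) (ε : ℝ) (hu : ∀ p, 0 ≤ E.gu j p)
    (hz : ∀ i, |z i| ≤ 1) (hz' : ∀ i, |z' i| ≤ 1)
    (hzz : ∀ i, |z i - z' i| ≤ ε) :
    |fzc E j z n| ≤ cm (fun p => 1 / (p : ℝ) + E.g j p) n ∧
    |fzc E j z n - fzc E j z' n| ≤ ε * tb E j n := by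
  have hε : 0 ≤ ε := (abs_nonneg _).trans (hzz (0, 0))
  have h := perturb_cm (fun p => 1 / (p : ℝ)) (E.gz j z) (E.gz j z') (E.g j) ε
    (fun p => by positivity) hε
    (fun p => (E.gz_le j z 1 hz hu p).trans (le_of_eq (one_mul _)))
    (fun p => (E.gz_le j z' 1 hz' hu p).trans (le_of_eq (one_mul _)))
    (fun p => by rw [E.gz_sub]; exact E.gz_le j _ ε hzz hu p) n
  exact ⟨h.1, h.2.1⟩

lemma E2c_scale (j n : ℕ) (hn : n ≠ 0) :
    cm (fun p => 1 / (p : ℝ) + 2 * E.g j p) n = E2c E j n / (n : ℝ) := by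
  rw [cm_scale (fun p => 2 * E.g j p) hn]
  unfold E2c
  congr 1
  apply cm_congr
  intro p _
  ring

lemma cm_g_le (j n : ℕ) (hu : ∀ p, 0 ≤ E.gu j p) (hh : ∀ p, 0 ≤ E.gh j p) :
    cm (fun p => 1 / (p : ℝ) + E.g j p) n ≤ cm (fun p => 1 / (p : ℝ) + 2 * E.g j p) n := by
  apply cm_le_cm
  · intro p _
    have := E.g_nonneg j p hu hh
    positivity
  · intro p _
    have := E.g_nonneg j p hu hh
    linarith

lemma tb_nonneg (j n : ℕ) (hu : ∀ p, 0 ≤ E.gu j p) (hh : ∀ p, 0 ≤ E.gh j p) : 0 ≤ tb E j n := by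
  have := cm_g_le E j n hu hh
  unfold tb
  linarith

lemma tb_le (j n : ℕ) (hu : ∀ p, 0 ≤ E.gu j p) (hh : ∀ p, 0 ≤ E.gh j p) (hn : n ≠ 0) :
    tb E j n ≤ E2c E j n / (n : ℝ) := by
  rw [← E2c_scale E j n hn]
  unfold tb
  have : 0 ≤ cm (fun p => 1 / (p : ℝ) + E.g j p) n := by
    apply cm_nonneg
    intro p _
    have := E.g_nonneg j p hu hh
    positivity
  linarith

lemma inv_le_E2c (j n : ℕ) (hu : ∀ p, 0 ≤ E.gu j p) (hh : ∀ p, 0 ≤ E.gh j p) :
    1 / (n : ℝ) ≤ E2c E j n / (n : ℝ) := by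
  apply div_le_div_of_nonneg_right _ (Nat.cast_nonneg n)
  apply one_le_cm
  intro p _
  have := E.g_nonneg j p hu hh
  have : 0 ≤ (p : ℝ) * E.g j p := by positivity
  linarith

lemma fzc_zero (j n : ℕ) (hu : ∀ p, 0 ≤ E.gu j p) (hn : n ≠ 0) :
    |fzc E j 0 n| = 1 / (n : ℝ) := by
  have h0 : ∀ p, E.gz j 0 p = 0 := fun p => by
    have := E.gz_le j 0 0 (fun i => by simp) hu p
    rw [zero_mul] at this
    exact abs_eq_zero.1 (le_antisymm this (abs_nonneg _))
  unfold fzc
  rw [cm_abs, ← cm_inv hn]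
  apply cm_congr
  intro p _
  rw [h0, zero_sub, abs_neg, abs_of_nonneg (by positivity)]

/-- rough numbers up to `2^j` -/
noncomputable def A0c (R j : ℕ) : Finset ℕ := (Icc 1 (2 ^ j)).filter (fun n => Rough R n)

/-- the first block -/
lemma tb_first (hGB : E.GBounds) (R : ℕ) : ∃ J : ℕ, 3 ≤ J ∧ ∀ j : ℕ, J ≤ j →
    (E.UB j).Nonempty ∧ (∀ p ∈ E.UB j, p.Prime) ∧
    ∑ n ∈ A0c R j, tb E j n ≤ 8 * j + 8 * j / 4 := by
  obtain ⟨J, hJ, hGB⟩ := hGB
  refine ⟨J + 3, by omega, fun j hj => ?_⟩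
  obtain ⟨hUB, hu0, hh0, hgu, hgh, _, hghq, hsum, _⟩ := hGB j (by omega)
  have hj1 : 1 ≤ j := by omega
  have hjr : (1 : ℝ) ≤ j := by exact_mod_cast hj1
  have hcU := E.hcU
  have hcard : 0 < ((E.UB j).card : ℝ) := lt_of_lt_of_le (by positivity) hUB
  have hUBp : ∀ p ∈ E.UB j, p.Prime := by
    intro p hp
    unfold Env.UB at hp
    exact E.u_prime p (mem_filter.1 hp).2
  refine ⟨by exact Finset.card_pos.1 (by exact_mod_cast hcard), hUBp, ?_⟩
  -- every prime with a perturbation is large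
  have hlarge : ∀ p : ℕ, E.g j p ≠ 0 → (2 : ℝ) ^ ((j : ℝ) / 2) ≤ p := by
    intro p hp
    by_cases h1 : E.gh j p = 0
    · have h2 : E.gu j p ≠ 0 := by
        intro h2
        apply hp
        unfold Env.g
        rw [h1, h2, add_zero]
      have h3 := (hgu p h2).2
      rcases Nat.lt_or_ge j 2 with hj2 | hj2
      · have hj' : j = 1 := by omega
        have h4 := (E.u_prime p (hgu p h2).1).two_le
        rw [hj']
        have h5 : (2 : ℝ) ^ (((1 : ℕ) : ℝ) / 2) ≤ (2 : ℝ) ^ (1 : ℝ) :=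
          Real.rpow_le_rpow_of_exponent_le (by norm_num) (by norm_num)
        rw [Real.rpow_one] at h5
        have h6 : (2 : ℝ) ≤ p := by exact_mod_cast h4
        linarith
      · have h4 : (2 : ℝ) ^ ((j : ℝ) / 2) ≤ (2 : ℝ) ^ (((j - 1 : ℕ) : ℝ)) := by
          apply Real.rpow_le_rpow_of_exponent_le (by norm_num)
          rw [Nat.cast_sub hj1]
          have : (2 : ℝ) ≤ j := by exact_mod_cast hj2
          push_cast
          linarith
        rw [Real.rpow_natCast] at h4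
        have h5 : ((2 ^ (j - 1) : ℕ) : ℝ) < p := by exact_mod_cast h3
        push_cast at h5
        linarith
    · exact (hghq p h1).1
  have hinj : ∀ p q : ℕ, E.g j p ≠ 0 → E.g j q ≠ 0 → p ≠ q → 2 ^ j < p * q := by
    intro p q hp hq hne
    have h1 := hlarge p hp
    have h2 := hlarge q hq
    have h3 : (2 : ℝ) ^ ((j : ℝ) / 2) * (2 : ℝ) ^ ((j : ℝ) / 2) = ((2 ^ j : ℕ) : ℝ) := by
      rw [← Real.rpow_add (by norm_num)]
      push_cast
      rw [← Real.rpow_natCast]
      congr 1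
      ring
    have h4 : (0 : ℝ) < (2 : ℝ) ^ ((j : ℝ) / 2) := by positivity
    rcases lt_or_gt_of_ne hne with h | h
    · have h5 : (p : ℝ) < q := by exact_mod_cast h
      have h6 : ((2 ^ j : ℕ) : ℝ) < ((p * q : ℕ) : ℝ) := by
        rw [← h3]; push_cast; nlinarith
      exact_mod_cast h6
    · have h5 : (q : ℝ) < p := by exact_mod_cast h
      have h6 : ((2 ^ j : ℕ) : ℝ) < ((p * q : ℕ) : ℝ) := by
        rw [← h3]; push_cast; nlinarith
      exact_mod_cast h6
  -- the square of a prime with a perturbation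
  have hsqr : ∀ p : ℕ, p.Prime → E.g j p ≠ 0 → 2 ^ j < p * p := by
    intro p hp hg
    have h1 := hlarge p hg
    have h3 : (2 : ℝ) ^ ((j : ℝ) / 2) * (2 : ℝ) ^ ((j : ℝ) / 2) = ((2 ^ j : ℕ) : ℝ) := by
      rw [← Real.rpow_add (by norm_num)]
      push_cast
      rw [← Real.rpow_natCast]
      congr 1
      ring
    have h4 : 2 ^ j ≤ p * p := by
      have h5 : ((2 ^ j : ℕ) : ℝ) ≤ ((p * p : ℕ) : ℝ) := by
        rw [← h3]; push_cast
        exact mul_le_mul h1 h1 (by positivity) (Nat.cast_nonneg p)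
      exact_mod_cast h5
    rcases Nat.lt_or_ge (2 ^ j) (p * p) with h5 | h5
    · exact h5
    · exfalso
      have h6 : p * p = 2 ^ j := le_antisymm h5 h4
      have h7 : p ∣ 2 ^ j := ⟨p, h6.symm⟩
      have h8 : p = 2 := (Nat.prime_dvd_prime_iff_eq hp Nat.prime_two).1 (hp.dvd_of_dvd_pow h7)
      subst h8
      have h9 : 2 ^ 3 ≤ 2 ^ j := Nat.pow_le_pow_right (by norm_num) (by omega)
      omega
  -- values for n in A0c
  have htau : ∀ n ∈ A0c R j, tb E j n = ∑ p ∈ n.primeFactors, E.g j p * (1 / ((n / p : ℕ) : ℝ)) := by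
    intro n hn
    unfold A0c at hn
    rw [mem_filter, mem_Icc] at hn
    obtain ⟨⟨hn1, hn2⟩, _⟩ := hn
    by_cases hex : ∃ p ∈ n.primeFactors, E.g j p ≠ 0
    · obtain ⟨p, hp, hg⟩ := hex
      have hpp := Nat.prime_of_mem_primeFactors hp
      have hpn := Nat.dvd_of_mem_primeFactors hp
      obtain ⟨m, rfl⟩ := hpn
      have hm0 : m ≠ 0 := by
        rintro rfl
        omega
      have hfree : ∀ q ∈ m.primeFactors, E.g j q = 0 := by
        intro q hq
        by_contra hg2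
        have hqp := Nat.prime_of_mem_primeFactors hq
        have hqm := Nat.dvd_of_mem_primeFactors hq
        have hle : p * q ≤ 2 ^ j :=
          (Nat.le_of_dvd hn1 (Nat.mul_dvd_mul_left p hqm)).trans hn2
        by_cases hpq : p = q
        · subst hpq
          have := hsqr p hpp hg
          omega
        · have := hinj p q hg hg2 hpq
          omega
      have hv : ∀ c : ℝ, cm (fun p => 1 / (p : ℝ) + c * E.g j p) m = 1 / (m : ℝ) := by
        intro c
        rw [← cm_inv hm0]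
        apply cm_congr
        intro q hq
        rw [hfree q hq]
        ring
      have hv2 := hv 2
      have hv1 : cm (fun p => 1 / (p : ℝ) + E.g j p) m = 1 / (m : ℝ) := by
        have := hv 1
        simpa using this
      unfold tb
      rw [cm_prime_mul _ hpp hm0, cm_prime_mul _ hpp hm0, hv1, hv2,
        ← add_sum_erase _ _ hp, Nat.mul_div_cancel_left m hpp.pos]
      have h0 : ∑ q ∈ (p * m).primeFactors.erase p, E.g j q * (1 / ((p * m / q : ℕ) : ℝ)) = 0 := by
        refine sum_eq_zero fun q hq => ?_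
        rw [mem_erase] at hq
        have hqp := Nat.prime_of_mem_primeFactors hq.2
        have hqd := Nat.dvd_of_mem_primeFactors hq.2
        have hqm : q ∣ m := by
          rcases (Nat.Prime.dvd_mul hqp).1 hqd with h | h
          · exact absurd ((Nat.prime_dvd_prime_iff_eq hqp hpp).1 h) hq.1
          · exact h
        rw [hfree q (Nat.mem_primeFactors.2 ⟨hqp, hqm, hm0⟩), zero_mul]
      rw [h0, add_zero]
      ring
    · push Not at hex
      have h0 : ∀ c : ℝ, cm (fun p => 1 / (p : ℝ) + c * E.g j p) n = 1 / (n : ℝ) := by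
        intro c
        rw [← cm_inv (by omega : n ≠ 0)]
        apply cm_congr
        intro q hq
        rw [hex q hq]
        ring
      have h1 : cm (fun p => 1 / (p : ℝ) + E.g j p) n = 1 / (n : ℝ) := by
        have := h0 1
        simpa using this
      unfold tb
      rw [h0 2, h1, sub_self]
      symm
      refine sum_eq_zero fun q hq => ?_
      rw [hex q hq, zero_mul]
  have hsplit : ∑ n ∈ A0c R j, tb E j n =
      ∑ n ∈ A0c R j, ∑ p ∈ n.primeFactors, E.gu j p * (1 / ((n / p : ℕ) : ℝ)) +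
      ∑ n ∈ A0c R j, ∑ p ∈ n.primeFactors, E.gh j p * (1 / ((n / p : ℕ) : ℝ)) := by
    rw [← sum_add_distrib]
    refine sum_congr rfl fun n hn => ?_
    rw [htau n hn, ← sum_add_distrib]
    refine sum_congr rfl fun p _ => ?_
    unfold Env.g
    ring
  -- first part
  have hp1 : ∑ n ∈ A0c R j, ∑ p ∈ n.primeFactors, E.gu j p * (1 / ((n / p : ℕ) : ℝ)) ≤ 8 * j := by
    have h1 : ∀ n ∈ A0c R j, ∑ p ∈ n.primeFactors, E.gu j p * (1 / ((n / p : ℕ) : ℝ)) =
        if n ∈ E.UB j then 8 * j / ((E.UB j).card : ℝ) else 0 := by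
      intro n hn
      unfold A0c at hn
      rw [mem_filter, mem_Icc] at hn
      obtain ⟨⟨hn1, hn2⟩, _⟩ := hn
      have hkey : ∀ p ∈ n.primeFactors, E.gu j p ≠ 0 → p = n ∧ n ∈ E.UB j := by
        intro p hp hg
        have hpn := Nat.dvd_of_mem_primeFactors hp
        obtain ⟨hU, hlt⟩ := hgu p hg
        obtain ⟨m, rfl⟩ := hpn
        have hjj : 2 ^ j = 2 * 2 ^ (j - 1) := by
          rw [← pow_succ']
          congr 1
          omega
        have hm : m = 1 := by
          have hm0 : m ≠ 0 := by rintro rfl; omega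
          by_contra hm1
          have : 2 ≤ m := by omega
          nlinarith
        subst hm
        rw [mul_one] at hn2 ⊢
        exact ⟨rfl, by unfold Env.UB; exact mem_filter.2 ⟨mem_Ioc.2 ⟨hlt, hn2⟩, hU⟩⟩
      split_ifs with hmem
      · have hnp := hUBp n hmem
        rw [hnp.primeFactors, sum_singleton, Nat.div_self hnp.pos]
        have hgun : E.gu j n = 8 * j / ((E.UB j).card : ℝ) := by
          have hmem' := hmem
          unfold Env.UB at hmem'
          rw [mem_filter, mem_Ioc] at hmem'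
          unfold Env.gu
          rw [if_pos ⟨hmem'.2, hmem'.1.1⟩, if_pos hmem'.1.2]
        rw [hgun]
        simp
      · refine sum_eq_zero fun p hp => ?_
        by_cases hg : E.gu j p = 0
        · rw [hg, zero_mul]
        · exact absurd (hkey p hp hg).2 hmem
    rw [sum_congr rfl h1, ← sum_filter, sum_const, nsmul_eq_mul]
    have h2 : (((A0c R j).filter (fun n => n ∈ E.UB j)).card : ℝ) ≤ ((E.UB j).card : ℝ) := by
      exact_mod_cast Finset.card_le_card (fun n hn => (mem_filter.1 hn).2)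
    calc (((A0c R j).filter (fun n => n ∈ E.UB j)).card : ℝ) * (8 * j / ((E.UB j).card : ℝ))
        ≤ ((E.UB j).card : ℝ) * (8 * j / ((E.UB j).card : ℝ)) :=
          mul_le_mul_of_nonneg_right h2 (by positivity)
      _ = 8 * j := by field_simp
  -- second part
  have hp2 : ∑ n ∈ A0c R j, ∑ p ∈ n.primeFactors, E.gh j p * (1 / ((n / p : ℕ) : ℝ)) ≤ 2 := by
    have h1 : ∑ n ∈ A0c R j, ∑ p ∈ n.primeFactors, E.gh j p * (1 / ((n / p : ℕ) : ℝ)) ≤
        ∑ x ∈ (Icc (1 : ℕ) (2 ^ j)) ×ˢ (Icc (1 : ℕ) (2 ^ j)), E.gh j x.1 * (1 / (x.2 : ℝ)) := by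
      rw [sum_sigma']
      have hi : Set.InjOn (fun x : (_ : ℕ) × ℕ => ((x.2, x.1 / x.2) : ℕ × ℕ))
          (((A0c R j).sigma fun n => n.primeFactors : Finset ((_ : ℕ) × ℕ)) : Set ((_ : ℕ) × ℕ)) := by
        rintro ⟨n, p⟩ hx ⟨n', p'⟩ hy hxy
        simp only [Finset.coe_sigma, Set.mem_sigma_iff, Finset.mem_coe] at hx hy
        simp only [Prod.mk.injEq] at hxy
        obtain ⟨h1, h2⟩ := hxy
        subst h1
        have e1 := Nat.div_mul_cancel (Nat.dvd_of_mem_primeFactors hx.2)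
        have e2 := Nat.div_mul_cancel (Nat.dvd_of_mem_primeFactors hy.2)
        have : n = n' := by rw [← e1, ← e2, h2]
        subst this
        rfl
      have e : ∑ x ∈ (A0c R j).sigma fun n => n.primeFactors,
            E.gh j x.2 * (1 / ((x.1 / x.2 : ℕ) : ℝ)) =
          ∑ y ∈ ((A0c R j).sigma fun n => n.primeFactors).image
            (fun x : (_ : ℕ) × ℕ => ((x.2, x.1 / x.2) : ℕ × ℕ)), E.gh j y.1 * (1 / (y.2 : ℝ)) := by
        rw [sum_image hi]
      rw [e]
      refine sum_le_sum_of_subset_of_nonneg ?_ fun x _ _ => mul_nonneg (hh0 _) (by positivity)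
      intro y hy
      rw [mem_image] at hy
      obtain ⟨⟨n, p⟩, hx, rfl⟩ := hy
      rw [mem_sigma] at hx
      obtain ⟨hn, hp⟩ := hx
      simp only at hn hp
      unfold A0c at hn
      rw [mem_filter, mem_Icc] at hn
      have hpp := Nat.prime_of_mem_primeFactors hp
      have hpn := Nat.le_of_dvd hn.1.1 (Nat.dvd_of_mem_primeFactors hp)
      simp only [mem_product, mem_Icc]
      refine ⟨⟨hpp.one_le, hpn.trans hn.1.2⟩, ?_, (Nat.div_le_self _ _).trans hn.1.2⟩
      exact Nat.div_pos hpn hpp.pos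
    refine h1.trans ?_
    rw [sum_product]
    simp only
    have h2 : ∑ x ∈ Icc (1 : ℕ) (2 ^ j), ∑ y ∈ Icc (1 : ℕ) (2 ^ j), E.gh j x * (1 / (y : ℝ)) =
        (∑ x ∈ Icc (1 : ℕ) (2 ^ j), E.gh j x) * ∑ y ∈ Icc (1 : ℕ) (2 ^ j), 1 / (y : ℝ) := by
      rw [sum_mul_sum]
    rw [h2]
    have h3 : ∑ x ∈ Icc (1 : ℕ) (2 ^ j), E.gh j x ≤ 1 / j := by
      refine le_trans (sum_le_sum fun q hq => ?_) (hsum (Icc 1 (2 ^ j)))
      rw [mem_Icc] at hq
      have hq0 : (1 : ℝ) ≤ q := by exact_mod_cast hq.1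
      have h4 : (q : ℝ) * (q : ℝ) ^ (-1 + E.τ / 4) = (q : ℝ) ^ (E.τ / 4) := by
        nth_rewrite 1 [← Real.rpow_one (q : ℝ)]
        rw [← Real.rpow_add (by linarith)]
        congr 1
        ring
      have h5 : 1 ≤ (q : ℝ) ^ (E.τ / 4) := Real.one_le_rpow hq0 (by have := E.hτ; positivity)
      calc E.gh j q = E.gh j q * 1 := (mul_one _).symm
        _ ≤ E.gh j q * (q : ℝ) ^ (E.τ / 4) := mul_le_mul_of_nonneg_left h5 (hh0 q)
        _ = (q * E.gh j q) * (q : ℝ) ^ (-1 + E.τ / 4) := by rw [← h4]; ring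
    have h6 := Env.harm_le j
    have h7 : 0 ≤ ∑ x ∈ Icc (1 : ℕ) (2 ^ j), E.gh j x := sum_nonneg fun x _ => hh0 x
    calc (∑ x ∈ Icc (1 : ℕ) (2 ^ j), E.gh j x) * ∑ y ∈ Icc (1 : ℕ) (2 ^ j), 1 / (y : ℝ)
        ≤ (1 / j) * (1 + j) := mul_le_mul h3 h6 (sum_nonneg fun _ _ => by positivity) (by positivity)
      _ = 1 / j + 1 := by field_simp
      _ ≤ 1 + 1 := by
          have : 1 / (j : ℝ) ≤ 1 := by rw [div_le_one (by linarith)]; exact hjr
          linarith
      _ = 2 := by norm_num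
  rw [hsplit]
  linarith


end Pool.Agent.H421.CMO
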