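import Pool.Agent.H421_CMO.Sy
import Pool.Agent.Y973.MO.Core

/-!
# MP_768c9c_nt: the CMO function under the Riemann Hypothesis
-/

set_option autoImplicit false

namespace Pool.Agent.H421.CMO

open Finset Filter Topology
open scoped Classical
open Pool.Agent.W76.MO

/-- the function, real valued -/
noncomputable def ffc (E : Env) (R j : ℕ) (z : ℕ × ℕ → ℝ) (n : ℕ) : ℝ :=
  if Rough R n then fzc E j z n else 0

lemma ffc_mul (E : Env) (R j : ℕ) (z : ℕ × ℕ → ℝ) (m n : ℕ) (hm : 0 < m) (hn : 0 < n) :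
    ffc E R j z (m * n) = ffc E R j z m * ffc E R j z n := by
  unfold ffc
  have h1 := Env.rough_mul (R : ℝ) m n
  by_cases hm' : Rough R m
  · by_cases hn' : Rough R n
    · rw [if_pos (h1.2 ⟨hm', hn'⟩), if_pos hm', if_pos hn']
      exact cm_mul _ hm.ne' hn.ne'
    · rw [if_neg (fun h => hn' (h1.1 h).2), if_neg hn', mul_zero]
  · rw [if_neg (fun h => hm' (h1.1 h).1), if_neg hm', zero_mul]

/-- partial sums -/
noncomputable def SSc (E : Env) (R j : ℕ) (z : ℕ × ℕ → ℝ) (N : ℕ) : ℝ :=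
  ∑ n ∈ Icc 1 N, ffc E R j z n

lemma SSc_add (E : Env) (R j : ℕ) (z : ℕ × ℕ → ℝ) (M N : ℕ) (h : M ≤ N) :
    SSc E R j z N = SSc E R j z M + ∑ n ∈ Ioc M N, ffc E R j z n := by
  unfold SSc
  have h1 : Icc 1 N = Icc 1 M ∪ Ioc M N := by
    ext n
    simp only [mem_Icc, mem_union, mem_Ioc]
    omega
  rw [h1, sum_union]
  rw [disjoint_left]
  intro n hn hn'
  rw [mem_Icc] at hn
  rw [mem_Ioc] at hn'
  omega

lemma sum_cell_c (E : Env) (R j i k : ℕ) (z : ℕ × ℕ → ℝ) :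
    ∑ n ∈ cell E.δ i k, ffc E R j z n = ∑ n ∈ csc E R i k, fzc E j z n := by
  unfold csc ffc
  rw [sum_filter]

structure Solc (E : Env) (R j : ℕ) (z : ℕ × ℕ → ℝ) : Prop where
  z1 : ∀ x, |z x| ≤ 1
  R2 : 2 ≤ R
  j10 : 10 ≤ j
  key : E.Key R j
  nsp : ∀ i k : ℕ, j ≤ i → k < nc E.δ i →
    ∑ n ∈ ns E R i k, E2c E j n / (n : ℝ) ≤ E.w i / 4
  small : ∀ p : ℕ, p.Prime → E.g j p ≤ 1 / 4
  first : ∑ n ∈ A0c R j, fzc E j z n = 0
  cells : ∀ i k : ℕ, j ≤ i → k < nc E.δ i → ∑ n ∈ csc E R i k, fzc E j z n = 0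

variable {E : Env}

lemma Solc.SS_first {R j : ℕ} {z : ℕ × ℕ → ℝ} (h : Solc E R j z) : SSc E R j z (2 ^ j) = 0 := by
  unfold SSc ffc
  rw [← sum_filter]
  exact h.first

lemma Solc.SS_cell {R j : ℕ} {z : ℕ × ℕ → ℝ} (h : Solc E R j z) (i : ℕ) (hi : j ≤ i)
    (h0 : SSc E R j z (2 ^ i) = 0) (k : ℕ) (hk : k ≤ nc E.δ i) :
    SSc E R j z (2 ^ i + k * hh E.δ i) = 0 := by
  induction k with
  | zero => simpa using h0
  | succ k ih =>
    have h1 := ih (by omega)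
    rw [SSc_add E R j z (2 ^ i + k * hh E.δ i) _ (by gcongr; omega), h1, zero_add]
    have h2 := sum_cell_c E R j i k z
    unfold cell at h2
    rw [h2]
    exact h.cells i k hi (by omega)

lemma Solc.SS_block {R j : ℕ} {z : ℕ × ℕ → ℝ} (h : Solc E R j z) (i : ℕ) (hi : j ≤ i) :
    SSc E R j z (2 ^ i) = 0 := by
  induction i, hi using Nat.le_induction with
  | base => exact h.SS_first
  | succ i hi ih =>
    have h1 := h.SS_cell i hi ih (nc E.δ i) le_rfl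
    rw [nc_mul E.δ E.hδ i] at h1
    rw [pow_succ, mul_two]
    exact h1

lemma Solc.ff_abs {R j : ℕ} {z : ℕ × ℕ → ℝ} (h : Solc E R j z) (i k : ℕ) (hi : j ≤ i)
    (hk : k < nc E.δ i) : ∑ n ∈ cell E.δ i k, |ffc E R j z n| ≤ 5 * E.w i := by
  have h1 : ∑ n ∈ cell E.δ i k, |ffc E R j z n| = ∑ n ∈ csc E R i k, |fzc E j z n| := by
    unfold csc ffc
    rw [sum_filter]
    refine sum_congr rfl fun n _ => ?_
    split_ifs <;> simp
  rw [h1]
  have hw := E.w_nonneg i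
  have h2 : ∑ n ∈ csc E R i k, |fzc E j z n| ≤
      ∑ n ∈ csc E R i k, (if Squarefree n then E.mass j n else E2c E j n / (n : ℝ)) := by
    refine sum_le_sum fun n hn => ?_
    have hn0 : n ≠ 0 := by
      unfold csc at hn
      exact (Nat.lt_of_lt_of_le (Nat.succ_pos _)
        (cell_loc E.δ E.hδ i k n hk (mem_filter.1 hn).1).1).ne'
    split_ifs with hsq
    · rw [fzc_eq E j n z hsq]
      exact (E.fz_bound j n z z 0 h.key.u0 h.z1 h.z1 (fun x => by simp) hsq).1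
    · refine (fzc_bound E j n z z 0 h.key.u0 h.z1 h.z1 (fun x => by simp)).1.trans ?_
      rw [← E2c_scale E j n hn0]
      exact cm_g_le E j n h.key.u0 h.key.h0
  refine h2.trans ?_
  rw [csc_sum]
  have h3 := h.key.mass_cell i k hi hk
  have h4 := h.nsp i k hi hk
  linarith

lemma Solc.SS_le {R j : ℕ} {z : ℕ × ℕ → ℝ} (h : Solc E R j z) (N : ℕ) (hN : 2 ^ j < N) :
    |SSc E R j z N| ≤ 5 * E.w (Env.sc N) ∧ j ≤ Env.sc N ∧ N ≤ 2 ^ (Env.sc N + 1) ∧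
      2 ^ Env.sc N < N := by
  have h2j : 0 < 2 ^ j := by positivity
  set i := Env.sc N with hi
  have h1 : 2 ^ i ≤ N - 1 := by
    rw [hi]
    exact Nat.pow_log_le_self 2 (by omega)
  have h2 : N - 1 < 2 ^ (i + 1) := by
    rw [hi]
    exact Nat.lt_pow_succ_log_self (by norm_num) (N - 1)
  have hji : j ≤ i := by
    by_contra hcon
    push Not at hcon
    have h3 : 2 ^ (i + 1) ≤ 2 ^ j := Nat.pow_le_pow_right (by norm_num) hcon
    have h4 := lt_of_lt_of_le h2 h3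
    omega
  set k := (N - 1 - 2 ^ i) / hh E.δ i with hk
  have hpos := hh_pos E.δ i
  have h3 : k * hh E.δ i ≤ N - 1 - 2 ^ i := Nat.div_mul_le_self _ _
  have h4 : N - 1 - 2 ^ i < (k + 1) * hh E.δ i := by
    have h5 : N - 1 - 2 ^ i < hh E.δ i * (k + 1) := by
      have := Nat.lt_mul_div_succ (N - 1 - 2 ^ i) hpos
      exact this
    rw [mul_comm]
    exact h5
  have hkn : k < nc E.δ i := by
    have h5 := nc_mul E.δ E.hδ i
    have h6 : k * hh E.δ i < nc E.δ i * hh E.δ i := by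
      rw [h5]
      rw [pow_succ] at h2
      omega
    exact lt_of_mul_lt_mul_right h6 (Nat.zero_le _)
  have h0 := h.SS_cell i hji (h.SS_block i hji) k hkn.le
  refine ⟨?_, hji, by omega, by omega⟩
  rw [SSc_add E R j z (2 ^ i + k * hh E.δ i) N (by omega), h0, zero_add]
  refine (abs_sum_le_sum_abs _ _).trans (le_trans ?_ (h.ff_abs i k hji hkn))
  apply sum_le_sum_of_subset_of_nonneg
  · intro n hn
    rw [mem_Ioc] at hn
    unfold cell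
    rw [mem_Ioc]
    omega
  · intro n _ _
    exact abs_nonneg _

theorem Solc.bound {R j : ℕ} {z : ℕ × ℕ → ℝ} (h : Solc E R j z) : ∃ C : ℝ, 0 < C ∧
    ∀ N : ℕ, 1 ≤ N → |SSc E R j z N| ≤ C * (N : ℝ) ^ (-(1 / 2 : ℝ) - E.δ / 2) := by
  set M : ℝ := ∑ n ∈ Icc 1 (2 ^ j), |ffc E R j z n| with hM
  have hM0 : 0 ≤ M := sum_nonneg fun _ _ => abs_nonneg _
  have hδ := E.hδ
  refine ⟨10 + M * ((2 ^ j : ℕ) : ℝ) ^ (1 / 2 + E.δ / 2), by positivity, fun N hN => ?_⟩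
  have hN0 : (0 : ℝ) < N := by exact_mod_cast hN
  rcases Nat.lt_or_ge (2 ^ j) N with h1 | h1
  · obtain ⟨h2, h3, h4, _⟩ := h.SS_le N h1
    have h5 := Env.w_le E (Env.sc N) N (by have := h.j10; omega) h4 hN
    have h6 : 0 < (N : ℝ) ^ (-(1 / 2 : ℝ) - E.δ / 2) := by positivity
    have h7 : 0 ≤ M * ((2 ^ j : ℕ) : ℝ) ^ (1 / 2 + E.δ / 2) := by positivity
    nlinarith
  · have h2 : |SSc E R j z N| ≤ M := by
      unfold SSc
      refine (abs_sum_le_sum_abs _ _).trans ?_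
      apply sum_le_sum_of_subset_of_nonneg
      · exact Icc_subset_Icc_right h1
      · intro n _ _
        exact abs_nonneg _
    have h3 : 1 ≤ ((2 ^ j : ℕ) : ℝ) ^ (1 / 2 + E.δ / 2) * (N : ℝ) ^ (-(1 / 2 : ℝ) - E.δ / 2) := by
      have h4 : (N : ℝ) ^ (1 / 2 + E.δ / 2) ≤ ((2 ^ j : ℕ) : ℝ) ^ (1 / 2 + E.δ / 2) := by
        apply Real.rpow_le_rpow hN0.le (by exact_mod_cast h1)
        positivity
      have h5 : (N : ℝ) ^ (1 / 2 + E.δ / 2) * (N : ℝ) ^ (-(1 / 2 : ℝ) - E.δ / 2) = 1 := by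
        rw [← Real.rpow_add hN0]
        have : (1 / 2 + E.δ / 2) + (-(1 / 2 : ℝ) - E.δ / 2) = 0 := by ring
        rw [this, Real.rpow_zero]
      have h6 : 0 ≤ (N : ℝ) ^ (-(1 / 2 : ℝ) - E.δ / 2) := by positivity
      have h7 := mul_le_mul_of_nonneg_right h4 h6
      rw [h5] at h7
      exact h7
    have h6 : 0 < (N : ℝ) ^ (-(1 / 2 : ℝ) - E.δ / 2) := by positivity
    calc |SSc E R j z N| ≤ M * 1 := by rw [mul_one]; exact h2
      _ ≤ M * (((2 ^ j : ℕ) : ℝ) ^ (1 / 2 + E.δ / 2) * (N : ℝ) ^ (-(1 / 2 : ℝ) - E.δ / 2)) :=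
          mul_le_mul_of_nonneg_left h3 hM0
      _ ≤ (10 + M * ((2 ^ j : ℕ) : ℝ) ^ (1 / 2 + E.δ / 2)) * (N : ℝ) ^ (-(1 / 2 : ℝ) - E.δ / 2) := by
          nlinarith

lemma ffc_one (E : Env) (R j : ℕ) (z : ℕ × ℕ → ℝ) : ffc E R j z 1 = 1 := by
  unfold ffc fzc
  rw [if_pos, cm_one]
  intro p hp hd
  exact absurd (Nat.dvd_one.1 hd) hp.one_lt.ne'

/-- from an environment to a CMO function with small partial sums -/
theorem env_cmo (E : Env) (hHC : E.HCount) (hGB : E.GBounds)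
    (hKey : ∃ R₀ : ℕ, ∀ R : ℕ, R₀ ≤ R → ∃ J : ℕ, ∀ j : ℕ, J ≤ j → E.Key R j) :
    ∃ f : ℕ → ℝ, f 1 = 1 ∧ (∀ m n : ℕ, 0 < m → 0 < n → f (m * n) = f m * f n) ∧
      ∃ c C : ℝ, 0 < c ∧ 0 < C ∧ ∀ N : ℕ, 1 ≤ N →
        |∑ n ∈ Icc 1 N, f n| ≤ C * (N : ℝ) ^ (-(1 / 2 : ℝ) - c) := by
  have hPB : Env.PairB E.τ E.δ := Pool.Agent.W1.MO.pb E.τ E.δ E.hτ E.hτ' E.hδ E.hδ'
  obtain ⟨R, j, z, h1, h2, h3, h4, h5, h6, h7, h8⟩ :=
    system_c E hGB hHC hKey (ns_part E hHC hGB hPB)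
  have hsol : Solc E R j z := ⟨h1, h2, h3, h4, h5, h6, h7, h8⟩
  obtain ⟨C, hC, hb⟩ := hsol.bound
  exact ⟨ffc E R j z, ffc_one E R j z, fun m n hm hn => ffc_mul E R j z m n hm hn, E.δ / 2, C,
    by have := E.hδ; positivity, hC, hb⟩

/-- under RH there is a real CMO function with partial sums `O(x^(-1/2-c))` -/
theorem rh_cmo (hRH : RiemannHypothesis) :
    ∃ f : ℕ → ℝ, f 1 = 1 ∧ (∀ m n : ℕ, 0 < m → 0 < n → f (m * n) = f m * f n) ∧
      ∃ c C : ℝ, 0 < c ∧ 0 < C ∧ ∀ N : ℕ, 1 ≤ N →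
        |∑ n ∈ Icc 1 N, f n| ≤ C * (N : ℝ) ^ (-(1 / 2 : ℝ) - c) := by
  obtain ⟨E, hHC, hGB, hKey⟩ := Pool.Agent.Y973.MO.env_rh hRH
  exact env_cmo E hHC hGB hKey

end Pool.Agent.H421.CMO
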