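import Pool.Agent.H421_CMO.H1c

/-!
# MP_768c9c_nt: host sums for all rough numbers; pairs with `n₁ ∤ n`
-/

set_option autoImplicit false

namespace Pool.Agent.H421.CMO

open Finset Filter Topology
open scoped Classical
open Pool.Agent.W76.MO
open Pool.Agent.W356.MO (pow_le_exp hh_le le_hh bad_lt bad_card cell_le lt_cell w_nonneg
  lp_mem_of_pos)
open Pool.Agent.W640.MO (factor_le)

/-- bound of `HT` by (number of pairs) x (bound of the terms) -/
theorem HTc_le2 (E : Env) (j R i k i' k' : ℕ) (P : ℕ → ℕ → Prop) (B : ℝ) (hB0 : 0 ≤ B)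
    (hB : ∀ u : ℕ × ℕ, u.1 ∈ E.Host j i' k' → u.2 ∈ csc E R i k → W76.MO.lp u.1 ∣ u.2 →
      P u.1 u.2 → E.w i' / ((E.Host j i' k').card : ℝ) * ((u.1 : ℝ) / u.2) *
        E2c E j (u.2 / W76.MO.lp u.1) ≤ B)
    (S : Finset (ℕ × ℕ))
    (hS : ∀ u : ℕ × ℕ, u.1 ∈ E.Host j i' k' → u.2 ∈ csc E R i k → W76.MO.lp u.1 ∣ u.2 →
      (2 : ℝ) ^ (1 / 20 * (i : ℝ)) < W76.MO.lp u.1 → P u.1 u.2 → u ∈ S) :
    HTc E j R i k i' k' P ≤ (S.card : ℝ) * B := by
  unfold HTc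
  refine le_trans (Finset.sum_le_card_nsmul _ _ B ?_) ?_
  · intro u hu
    rw [Finset.mem_filter, Finset.mem_product] at hu
    exact hB u hu.1.1 hu.1.2 hu.2.1 hu.2.2.2
  · rw [nsmul_eq_mul]
    apply mul_le_mul_of_nonneg_right _ hB0
    rw [Nat.cast_le]
    apply Finset.card_le_card
    intro u hu
    rw [Finset.mem_filter, Finset.mem_product] at hu
    exact hS u hu.1.1 hu.1.2 hu.2.1 hu.2.2.1 hu.2.2.2
theorem HBc (E : Env) (hC : E.HCount) (hG : E.GBounds) (hP : Env.PairB E.τ E.δ) :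
    ∃ J : ℕ, ∀ j : ℕ, J ≤ j → ∀ R i k : ℕ, j ≤ i → k < nc E.δ i →
    ∑ i' ∈ (range (2 * i + 3)).filter (fun i' : ℕ => j ≤ i' ∧ (1 - E.τ) * i ≤ (i' : ℝ)),
      ∑ k' ∈ E.Bad i', HTc E j R i k i' k' (fun a b => ¬ a ∣ b) ≤ E.w i / 64 := by
  obtain ⟨JC, hC⟩ := hC
  obtain ⟨JG, _, hG⟩ := hG
  obtain ⟨JP, hP⟩ := hP
  have hτ := E.hτ
  have hτ' := E.hτ'
  have hδ := E.hδ
  have hδ' := E.hδ'
  have hcH := E.hcH
  obtain ⟨J0, hJ0⟩ := pow_le_exp (5 * 2048 / E.cH) 41 (c := E.τ / 5) (by linarith)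
  refine ⟨max (max (max JC JG) (max JP J0)) (max E.i₁ 2), fun j hj R i k hij hk => ?_⟩
  have hjC : JC ≤ j := by
    refine le_trans ?_ hj
    simp
  have hjG : JG ≤ j := by
    refine le_trans ?_ hj
    simp
  have hjP : JP ≤ j := by
    refine le_trans ?_ hj
    simp
  have hj0 : J0 ≤ j := by
    refine le_trans ?_ hj
    simp
  have hj1 : E.i₁ ≤ j := by
    refine le_trans ?_ hj
    simp
  have hj2 : 2 ≤ j := by
    refine le_trans ?_ hj
    simp
  obtain ⟨_, hgu, hgh, h4, h5, h6, h7, _⟩ := hG j hjG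
  have hi2 : (2 : ℝ) ≤ i := by exact_mod_cast le_trans hj2 hij
  -- bound of one HT
  have hHT : ∀ i' ∈ (range (2 * i + 3)).filter
      (fun i' : ℕ => j ≤ i' ∧ (1 - E.τ) * i ≤ (i' : ℝ)), ∀ k' ∈ E.Bad i',
      HTc E j R i k i' k' (fun a b => ¬ a ∣ b) ≤
        (hh E.δ i * (2 : ℝ) ^ (-(E.τ / 4) * i)) *
          (8 / E.cH * (2 : ℝ) ^ (E.δ / 2 * i') / (2 : ℝ) ^ i * (2 : ℝ) ^ (9 * E.δ * (i + 1))) := by
    intro i' hi' k' hk'
    rw [Finset.mem_filter, Finset.mem_range] at hi'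
    obtain ⟨hi'1, hi'2, hi'3⟩ := hi'
    have hk'n : k' < nc E.δ i' := bad_lt hk'
    have hi'pos : (0 : ℝ) < i' := by
      have : 0 < i' := by omega
      exact_mod_cast this
    have hi'one : (1 : ℝ) ≤ i' := by
      have : 1 ≤ i' := by omega
      exact_mod_cast this
    have hhost := hC j hjC i' hi'2 k' hk'
    have hhp : (0 : ℝ) < hh E.δ i' := by exact_mod_cast hh_pos E.δ i'
    have hcardpos : (0 : ℝ) < ((E.Host j i' k').card : ℝ) := by
      refine lt_of_lt_of_le ?_ hhost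
      positivity
    -- pairs
    have hpair := hP i i' (le_trans hjP hij) hi'3 (by omega)
      (2 ^ i + k * hh E.δ i) (2 ^ i' + k' * hh E.δ i') (Nat.le_add_right _ _)
      (by
        have h1 : (k + 1) * hh E.δ i ≤ 2 ^ i := by
          calc (k + 1) * hh E.δ i ≤ (2 ^ i / hh E.δ i) * hh E.δ i := Nat.mul_le_mul_right _ hk
            _ ≤ 2 ^ i := Nat.div_mul_le_self _ _
        have h2 : k * hh E.δ i ≤ (k + 1) * hh E.δ i := Nat.mul_le_mul_right _ (by omega)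
        rw [pow_succ]
        omega)
      (Nat.le_add_right _ _)
      (by
        have h1 : (k' + 1) * hh E.δ i' ≤ 2 ^ i' := by
          calc (k' + 1) * hh E.δ i' ≤ (2 ^ i' / hh E.δ i') * hh E.δ i' := Nat.mul_le_mul_right _ hk'n
            _ ≤ 2 ^ i' := Nat.div_mul_le_self _ _
        have h2 : k' * hh E.δ i' ≤ (k' + 1) * hh E.δ i' := Nat.mul_le_mul_right _ (by omega)
        rw [pow_succ]
        omega)
    -- termwise bound
    have hterm : ∀ u : ℕ × ℕ, u.1 ∈ E.Host j i' k' → u.2 ∈ csc E R i k →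
      W76.MO.lp u.1 ∣ u.2 →
      E.w i' / ((E.Host j i' k').card : ℝ) * ((u.1 : ℝ) / u.2) *
        E2c E j (u.2 / W76.MO.lp u.1) ≤
        8 / E.cH * (2 : ℝ) ^ (E.δ / 2 * i') / (2 : ℝ) ^ i * (2 : ℝ) ^ (9 * E.δ * (i + 1)) := by
      intro u hu1 hu2 hu3
      have hc1 : u.1 ∈ cell E.δ i' k' := by
        unfold Env.Host at hu1
        exact (Finset.mem_filter.mp hu1).1
      have hc2 : u.2 ∈ cell E.δ i k := by
        unfold csc at hu2
        exact (Finset.mem_filter.mp hu2).1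
      have hle1 : (u.1 : ℝ) ≤ 2 * (2 : ℝ) ^ i' := by
        have : u.1 ≤ 2 ^ (i' + 1) := cell_le hk'n hc1
        have h' : (u.1 : ℝ) ≤ ((2 ^ (i' + 1) : ℕ) : ℝ) := by exact_mod_cast this
        push_cast at h'
        rw [pow_succ] at h'
        linarith
      have hle2 : u.2 ≤ 2 ^ (i + 1) := cell_le hk hc2
      have hgt2 : (2 : ℝ) ^ i < u.2 := by
        have : 2 ^ i < u.2 := lt_cell hc2
        exact_mod_cast this
      have hpos2 : 0 < u.2 := lt_of_le_of_lt (Nat.zero_le _) (lt_cell hc2)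
      have hlpos : 0 < W76.MO.lp u.1 := Nat.pos_of_dvd_of_pos hu3 hpos2
      have hne : u.2 / W76.MO.lp u.1 ≠ 0 := by
        have := Nat.div_pos (Nat.le_of_dvd hpos2 hu3) hlpos
        omega
      have hE2 : E2c E j (u.2 / W76.MO.lp u.1) ≤ (2 : ℝ) ^ (9 * E.δ * (i + 1)) := by
        refine le_trans (E2c_le E hgu hgh (factor_le E hj2 h4 h5 h6 h7) _ (Nat.one_le_iff_ne_zero.2 hne)) ?_
        have h8 : ((u.2 / W76.MO.lp u.1 : ℕ) : ℝ) ≤ (2 : ℝ) ^ ((i : ℝ) + 1) := by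
          have h9 : u.2 / W76.MO.lp u.1 ≤ 2 ^ (i + 1) := le_trans (Nat.div_le_self _ _) hle2
          rw [show ((i : ℝ) + 1) = ((i + 1 : ℕ) : ℝ) by push_cast; ring, Real.rpow_natCast]
          exact_mod_cast h9
        calc ((u.2 / W76.MO.lp u.1 : ℕ) : ℝ) ^ (9 * E.δ) ≤ ((2 : ℝ) ^ ((i : ℝ) + 1)) ^ (9 * E.δ) :=
              Real.rpow_le_rpow (by positivity) h8 (by linarith)
          _ = (2 : ℝ) ^ (9 * E.δ * (i + 1)) := by
              rw [← Real.rpow_mul (by norm_num)]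
              ring_nf
      have hw : E.w i' / ((E.Host j i' k').card : ℝ) * ((u.1 : ℝ) / u.2) ≤
          8 / E.cH * (2 : ℝ) ^ (E.δ / 2 * i') / (2 : ℝ) ^ i := by
        have hw0 := w_nonneg E i'
        have hA : E.w i' / ((E.Host j i' k').card : ℝ) ≤
            E.w i' / (E.cH / 2 * hh E.δ i' / i') :=
          div_le_div_of_nonneg_left hw0 (by positivity) hhost
        have hB : (u.1 : ℝ) / u.2 ≤ 2 * (2 : ℝ) ^ i' / (2 : ℝ) ^ i := by
          apply div_le_div₀ (by positivity) hle1 (by positivity) hgt2.le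
        have hCC : E.w i' / (E.cH / 2 * hh E.δ i' / i') * (2 * (2 : ℝ) ^ i') ≤
            8 / E.cH * (2 : ℝ) ^ (E.δ / 2 * i') := by
          have hD : E.w i' * (i' : ℝ) ≤ (2 : ℝ) ^ (-(1 / 2 + E.δ / 2) * i') := by
            unfold Env.w
            rw [div_mul_eq_mul_div, div_le_iff₀ (by positivity)]
            apply mul_le_mul_of_nonneg_left _ (by positivity)
            calc (i' : ℝ) = (i' : ℝ) ^ 1 := (pow_one _).symm
              _ ≤ (i' : ℝ) ^ 40 := pow_le_pow_right₀ hi'one (by norm_num)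
          have hF := le_hh E.δ i'
          have hG : (2 : ℝ) ^ (-(1 / 2 + E.δ / 2) * i') * (2 : ℝ) ^ i' ≤
              2 * (2 : ℝ) ^ (E.δ / 2 * i') * (hh E.δ i' : ℝ) := by
            calc (2 : ℝ) ^ (-(1 / 2 + E.δ / 2) * i') * (2 : ℝ) ^ i' =
                2 * (2 : ℝ) ^ (E.δ / 2 * i') * (2 : ℝ) ^ ((1 / 2 - E.δ) * i' - 1) := by
                  rw [← Real.rpow_natCast 2 i', ← Real.rpow_add (by norm_num)]
                  rw [show (2 : ℝ) * (2 : ℝ) ^ (E.δ / 2 * i') = (2 : ℝ) ^ (1 + E.δ / 2 * i') by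
                    rw [Real.rpow_add (by norm_num), Real.rpow_one]]
                  rw [← Real.rpow_add (by norm_num)]
                  congr 1
                  ring
              _ ≤ _ := mul_le_mul_of_nonneg_left hF (by positivity)
          have hH : E.w i' / (E.cH / 2 * hh E.δ i' / i') * (2 * (2 : ℝ) ^ i') =
              4 / (E.cH * hh E.δ i') * ((E.w i' * i') * (2 : ℝ) ^ i') := by
            field_simp
            ring
          rw [hH]
          calc 4 / (E.cH * hh E.δ i') * ((E.w i' * i') * (2 : ℝ) ^ i') ≤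
              4 / (E.cH * hh E.δ i') * (2 * (2 : ℝ) ^ (E.δ / 2 * i') * (hh E.δ i' : ℝ)) := by
                apply mul_le_mul_of_nonneg_left _ (by positivity)
                refine le_trans (mul_le_mul_of_nonneg_right hD (by positivity)) hG
            _ = 8 / E.cH * (2 : ℝ) ^ (E.δ / 2 * i') := by
                field_simp
                ring
        calc E.w i' / ((E.Host j i' k').card : ℝ) * ((u.1 : ℝ) / u.2) ≤
            E.w i' / (E.cH / 2 * hh E.δ i' / i') * (2 * (2 : ℝ) ^ i' / (2 : ℝ) ^ i) := by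
              apply mul_le_mul hA hB (by positivity)
              apply div_nonneg hw0 (by positivity)
          _ = (E.w i' / (E.cH / 2 * hh E.δ i' / i') * (2 * (2 : ℝ) ^ i')) / (2 : ℝ) ^ i :=
              (mul_div_assoc _ _ _).symm
          _ ≤ 8 / E.cH * (2 : ℝ) ^ (E.δ / 2 * i') / (2 : ℝ) ^ i := by
              apply div_le_div_of_nonneg_right hCC (by positivity)
      exact mul_le_mul hw hE2 (E2c_nonneg E hgu hgh _) (by positivity)
    refine le_trans (HTc_le2 E j R i k i' k' _ _ (by positivity)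
      (fun u hu1 hu2 hu3 _ => hterm u hu1 hu2 hu3) _ ?_)
      (mul_le_mul_of_nonneg_right hpair (by positivity))
    intro u hu1 hu2 hu3 hu4 hu5
    rw [Finset.mem_filter, Finset.mem_product]
    have hc2 : u.2 ∈ cell E.δ i k := by
      unfold csc at hu2
      exact (Finset.mem_filter.mp hu2).1
    unfold Env.Host at hu1
    rw [Finset.mem_filter] at hu1
    obtain ⟨hc1, hl1, hl2, hsf, hro, _⟩ := hu1
    have hpos2 : 0 < u.2 := lt_of_le_of_lt (Nat.zero_le _) (lt_cell hc2)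
    have hlpos : 0 < W76.MO.lp u.1 := Nat.pos_of_dvd_of_pos hu3 hpos2
    have hlm := lp_mem_of_pos hlpos
    have hlp : (W76.MO.lp u.1).Prime := Nat.prime_of_mem_primeFactors hlm
    have hld : W76.MO.lp u.1 ∣ u.1 := Nat.dvd_of_mem_primeFactors hlm
    refine ⟨⟨?_, ?_⟩, u.1 / W76.MO.lp u.1, W76.MO.lp u.1, (Nat.div_mul_cancel hld).symm, hlp, hl1,
      ?_, hu3, hu5⟩
    · unfold cell at hc1
      rw [Finset.mem_Ioc] at hc1 ⊢
      rw [add_mul, one_mul, ← add_assoc] at hc1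
      exact hc1
    · unfold cell at hc2
      rw [Finset.mem_Ioc] at hc2 ⊢
      rw [add_mul, one_mul, ← add_assoc] at hc2
      exact hc2
    · intro p hp hpd
      exact hro p hp (dvd_trans hpd (Nat.div_dvd_of_dvd hld))
  -- sum over k'
  have hsumk : ∀ i' ∈ (range (2 * i + 3)).filter
      (fun i' : ℕ => j ≤ i' ∧ (1 - E.τ) * i ≤ (i' : ℝ)),
      ∑ k' ∈ E.Bad i', HTc E j R i k i' k' (fun a b => ¬ a ∣ b) ≤
        (2 : ℝ) ^ (6 * E.δ * (i + 1)) * ((hh E.δ i * (2 : ℝ) ^ (-(E.τ / 4) * i)) *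
          (8 / E.cH * (2 : ℝ) ^ (E.δ * (i + 1)) / (2 : ℝ) ^ i *
            (2 : ℝ) ^ (9 * E.δ * (i + 1)))) := by
    intro i' hi'
    have hle : (i' : ℝ) ≤ 2 * (i + 1) := by
      have : i' < 2 * i + 3 := by
        rw [Finset.mem_filter, Finset.mem_range] at hi'
        exact hi'.1
      have h' : i' ≤ 2 * (i + 1) := by omega
      exact_mod_cast h'
    have hji : j ≤ i' := by
      rw [Finset.mem_filter] at hi'
      exact hi'.2.1
    refine le_trans (Finset.sum_le_card_nsmul _ _ _ (hHT i' hi')) ?_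
    rw [nsmul_eq_mul]
    have hb1 : ((E.Bad i').card : ℝ) ≤ (2 : ℝ) ^ (6 * E.δ * (i + 1)) := by
      refine le_trans (bad_card (le_trans hj1 hji)) ?_
      apply Real.rpow_le_rpow_of_exponent_le (by norm_num)
      nlinarith
    have hb2 : (2 : ℝ) ^ (E.δ / 2 * i') ≤ (2 : ℝ) ^ (E.δ * (i + 1)) := by
      apply Real.rpow_le_rpow_of_exponent_le (by norm_num)
      nlinarith
    have hb3 : (hh E.δ i * (2 : ℝ) ^ (-(E.τ / 4) * i)) *
          (8 / E.cH * (2 : ℝ) ^ (E.δ / 2 * i') / (2 : ℝ) ^ i * (2 : ℝ) ^ (9 * E.δ * (i + 1))) ≤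
          (hh E.δ i * (2 : ℝ) ^ (-(E.τ / 4) * i)) *
          (8 / E.cH * (2 : ℝ) ^ (E.δ * (i + 1)) / (2 : ℝ) ^ i *
            (2 : ℝ) ^ (9 * E.δ * (i + 1))) := by
      gcongr
    exact mul_le_mul hb1 hb3 (by positivity) (by positivity)
  refine le_trans (Finset.sum_le_card_nsmul _ _ _ hsumk) ?_
  rw [nsmul_eq_mul]
  have hcard : (((range (2 * i + 3)).filter
      (fun i' : ℕ => j ≤ i' ∧ (1 - E.τ) * i ≤ (i' : ℝ))).card : ℝ) ≤ 5 * i := by
    have h1 : ((range (2 * i + 3)).filter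
      (fun i' : ℕ => j ≤ i' ∧ (1 - E.τ) * i ≤ (i' : ℝ))).card ≤ 2 * i + 3 := by
      refine le_trans (Finset.card_filter_le _ _) ?_
      rw [Finset.card_range]
    have h2 : (((range (2 * i + 3)).filter
      (fun i' : ℕ => j ≤ i' ∧ (1 - E.τ) * i ≤ (i' : ℝ))).card : ℝ) ≤ 2 * i + 3 := by
      exact_mod_cast h1
    linarith
  -- final numerical estimate
  have hhi : (hh E.δ i : ℝ) / (2 : ℝ) ^ i ≤ (2 : ℝ) ^ (-(1 / 2 + E.δ / 2) * i) := by
    rw [div_le_iff₀ (by positivity)]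
    refine le_trans (hh_le (by linarith) i) ?_
    rw [← Real.rpow_natCast 2 i, ← Real.rpow_add (by norm_num)]
    apply Real.rpow_le_rpow_of_exponent_le (by norm_num)
    nlinarith
  have hJ := hJ0 i (le_trans hj0 hij)
  have hexp : (2 : ℝ) ^ (6 * E.δ * (i + 1)) * ((2 : ℝ) ^ (-(E.τ / 4) * i) *
      ((2 : ℝ) ^ (E.δ * (i + 1)) * (2 : ℝ) ^ (9 * E.δ * (i + 1)))) ≤
      2 * (2 : ℝ) ^ (-(E.τ / 5) * i) := by
    rw [← Real.rpow_add (by norm_num), ← Real.rpow_add (by norm_num),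
      ← Real.rpow_add (by norm_num)]
    rw [show (2 : ℝ) * (2 : ℝ) ^ (-(E.τ / 5) * i) = (2 : ℝ) ^ (1 + -(E.τ / 5) * i) by
      rw [Real.rpow_add (by norm_num), Real.rpow_one]]
    apply Real.rpow_le_rpow_of_exponent_le (by norm_num)
    nlinarith
  have hip : (0 : ℝ) < i := by linarith
  have hfin : 5 * (i : ℝ) * (8 / E.cH * (2 * (2 : ℝ) ^ (-(E.τ / 5) * i))) ≤
      1 / (i : ℝ) ^ 40 / 64 := by
    rw [neg_mul, Real.rpow_neg (by norm_num), div_div, le_div_iff₀ (by positivity)]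
    have h2 : (0 : ℝ) < (2 : ℝ) ^ (E.τ / 5 * i) := by positivity
    calc 5 * (i : ℝ) * (8 / E.cH * (2 * ((2 : ℝ) ^ (E.τ / 5 * i))⁻¹)) * ((i : ℝ) ^ 40 * 64)
        = (5 * 1024 / E.cH * (i : ℝ) ^ 41) * ((2 : ℝ) ^ (E.τ / 5 * i))⁻¹ := by ring
      _ ≤ (5 * 2048 / E.cH * (i : ℝ) ^ 41) * ((2 : ℝ) ^ (E.τ / 5 * i))⁻¹ := by
          gcongr
          norm_num
      _ ≤ (2 : ℝ) ^ (E.τ / 5 * i) * ((2 : ℝ) ^ (E.τ / 5 * i))⁻¹ := by
          apply mul_le_mul_of_nonneg_right hJ (by positivity)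
      _ = 1 := mul_inv_cancel₀ (ne_of_gt h2)
  calc (((range (2 * i + 3)).filter
      (fun i' : ℕ => j ≤ i' ∧ (1 - E.τ) * i ≤ (i' : ℝ))).card : ℝ) *
      ((2 : ℝ) ^ (6 * E.δ * (i + 1)) * ((hh E.δ i * (2 : ℝ) ^ (-(E.τ / 4) * i)) *
          (8 / E.cH * (2 : ℝ) ^ (E.δ * (i + 1)) / (2 : ℝ) ^ i *
            (2 : ℝ) ^ (9 * E.δ * (i + 1))))) ≤
      (5 * i) * ((2 : ℝ) ^ (6 * E.δ * (i + 1)) * ((hh E.δ i * (2 : ℝ) ^ (-(E.τ / 4) * i)) *
          (8 / E.cH * (2 : ℝ) ^ (E.δ * (i + 1)) / (2 : ℝ) ^ i *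
            (2 : ℝ) ^ (9 * E.δ * (i + 1))))) := by
        apply mul_le_mul_of_nonneg_right hcard (by positivity)
    _ = ((hh E.δ i : ℝ) / (2 : ℝ) ^ i) * ((5 * i) * (8 / E.cH *
        ((2 : ℝ) ^ (6 * E.δ * (i + 1)) * ((2 : ℝ) ^ (-(E.τ / 4) * i) *
      ((2 : ℝ) ^ (E.δ * (i + 1)) * (2 : ℝ) ^ (9 * E.δ * (i + 1))))))) := by
        ring
    _ ≤ ((hh E.δ i : ℝ) / (2 : ℝ) ^ i) * ((5 * i) * (8 / E.cH *
        (2 * (2 : ℝ) ^ (-(E.τ / 5) * i)))) := by
        gcongr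
    _ ≤ (2 : ℝ) ^ (-(1 / 2 + E.δ / 2) * i) * (1 / (i : ℝ) ^ 40 / 64) :=
        mul_le_mul hhi hfin (by positivity) (by positivity)
    _ = E.w i / 64 := by
        unfold Env.w
        ring

end Pool.Agent.H421.CMO
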