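import Pool.Agent.H421_CMO.Sm

/-!
# MP_768c9c_nt: numbers with a large square divisor
-/

set_option autoImplicit false

namespace Pool.Agent.H421.CMO

open Finset Filter Topology
open scoped Classical
open Pool.Agent.W76.MO
open Pool.Agent.W683.MO (card_mult δ_half)
open Pool.Agent.W640.MO (factor_le poly_le_two_rpow)

/-- few numbers in an interval have a large square divisor -/
lemma junk_card (E : Env) (i k : ℕ) (hk : k < nc E.δ i) :
    (((cell E.δ i k).filter (fun n => ∃ d : ℕ, d ^ 2 ∣ n ∧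
      (2 : ℝ) ^ (10 * E.δ * (i : ℝ)) < d)).card : ℝ) ≤
      3 * (hh E.δ i / (2 : ℝ) ^ (10 * E.δ * (i : ℝ))) + (2 : ℝ) ^ (22 * E.δ * i + 3) := by
  have hδ := E.hδ
  have hδ1 : E.δ ≤ 1 / 100000 := by
    have := E.hδ'
    have := E.hτ'
    linarith
  set h := hh E.δ i with hhd
  set A := 2 ^ i + k * h with hAd
  set D : ℝ := (2 : ℝ) ^ (10 * E.δ * (i : ℝ)) with hD
  have hi0 : (0 : ℝ) ≤ i := Nat.cast_nonneg i
  have hDpos : 0 < D := by positivity
  have hD1 : 1 ≤ D := Real.one_le_rpow (by norm_num) (by positivity)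
  have hcell : cell E.δ i k = Ioc A (A + h) := by
    unfold cell
    rw [hAd, ← hhd]
    congr 1
    ring
  have hAh : A + h ≤ 2 ^ (i + 1) := by
    have h1 : nc E.δ i * h = 2 ^ i := nc_mul E.δ hδ i
    have h2 : (k + 1) * h ≤ nc E.δ i * h := Nat.mul_le_mul_right _ hk
    have h3 : (k + 1) * h = k * h + h := by ring
    have h4 : 2 ^ (i + 1) = 2 * 2 ^ i := by ring
    omega
  have hh1 : (2 : ℝ) ^ ((1 / 2 - E.δ) * i - 1) ≤ (h : ℝ) := Pool.Agent.W596.MO.le_hh E.δ i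
  have hh2 : (h : ℝ) ≤ (2 : ℝ) ^ ((1 / 2 - E.δ) * i) :=
    Pool.Agent.W683.MO.hh_le (δ_half E) i
  have hhpos : (0 : ℝ) < h := by
    have : (0 : ℝ) < (2 : ℝ) ^ ((1 / 2 - E.δ) * i - 1) := by positivity
    linarith
  have hhsq : h * h ≤ 2 ^ i := by
    have h1 : (h : ℝ) * h ≤ (2 : ℝ) ^ i := by
      calc (h : ℝ) * h ≤ (2 : ℝ) ^ ((1 / 2 - E.δ) * i) * (2 : ℝ) ^ ((1 / 2 - E.δ) * i) := by
            gcongr
        _ = (2 : ℝ) ^ ((1 / 2 - E.δ) * i + (1 / 2 - E.δ) * i) := by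
            rw [Real.rpow_add (by norm_num)]
        _ ≤ (2 : ℝ) ^ (i : ℝ) := by
            apply Real.rpow_le_rpow_of_exponent_le (by norm_num)
            nlinarith
        _ = _ := Real.rpow_natCast 2 i
    exact_mod_cast h1
  set N := (cell E.δ i k).filter (fun n => ∃ d : ℕ, d ^ 2 ∣ n ∧ D < d) with hN
  have hch : ∀ n : ℕ, ∃ d : ℕ, n ∈ N → d ^ 2 ∣ n ∧ D < d := by
    intro n
    by_cases hn : n ∈ N
    · obtain ⟨d, hd⟩ := (mem_filter.1 hn).2
      exact ⟨d, fun _ => hd⟩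
    · exact ⟨0, fun h => absurd h hn⟩
  choose dd hdd using hch
  have hNc : ∀ n ∈ N, A < n ∧ n ≤ A + h := by
    intro n hn
    rw [hN, mem_filter, hcell, mem_Ioc] at hn
    exact hn.1
  set Y : ℕ := ⌊(h : ℝ) / D⌋₊ with hY
  have hYle : (Y : ℝ) ≤ h / D := Nat.floor_le (by positivity)
  -- first class
  have hJ1 : ((N.filter (fun n => dd n ≤ Y)).card : ℝ) ≤ 3 * (h / D) := by
    have hfl : 1 ≤ ⌊D⌋₊ := by rwa [Nat.one_le_floor_iff]
    rcases Nat.lt_or_ge Y ⌊D⌋₊ with hlt | hge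
    · have h0 : N.filter (fun n => dd n ≤ Y) = ∅ := by
        rw [filter_eq_empty_iff]
        intro n hn hle
        have h1 := (hdd n hn).2
        have h2 : (dd n : ℝ) ≤ Y := by exact_mod_cast hle
        have h3 : (Y : ℝ) < ⌊D⌋₊ := by exact_mod_cast hlt
        have h4 := Nat.floor_le hDpos.le
        linarith
      rw [h0]
      simp only [card_empty, Nat.cast_zero]
      positivity
    · have hsub : N.filter (fun n => dd n ≤ Y) ⊆ (Ioc ⌊D⌋₊ Y).biUnion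
          (fun d => (Ioc A (A + h)).filter (fun n => d ^ 2 ∣ n)) := by
        intro n hn
        rw [mem_filter] at hn
        obtain ⟨h1, h2⟩ := hdd n hn.1
        rw [mem_biUnion]
        refine ⟨dd n, ?_, ?_⟩
        · rw [mem_Ioc]
          refine ⟨?_, hn.2⟩
          have h3 := Nat.floor_le hDpos.le
          have h4 : (⌊D⌋₊ : ℝ) < dd n := by linarith
          exact_mod_cast h4
        · rw [mem_filter, mem_Ioc]
          exact ⟨hNc n hn.1, h1⟩
      have h1 : ((N.filter (fun n => dd n ≤ Y)).card : ℝ) ≤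
          ∑ d ∈ Ioc ⌊D⌋₊ Y, ((((Ioc A (A + h)).filter (fun n => d ^ 2 ∣ n)).card : ℕ) : ℝ) := by
        exact_mod_cast (card_le_card hsub).trans card_biUnion_le
      refine h1.trans ?_
      have h2 : ∀ d ∈ Ioc ⌊D⌋₊ Y, ((((Ioc A (A + h)).filter (fun n => d ^ 2 ∣ n)).card : ℕ) : ℝ) ≤
          h * ((d : ℝ) ^ 2)⁻¹ + 1 := by
        intro d hd
        rw [mem_Ioc] at hd
        have hdp : 0 < d := by omega
        have h3 := card_mult A h (d ^ 2) (pow_pos hdp 2)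
        push_cast at h3
        rw [← div_eq_mul_inv]
        exact h3
      refine (sum_le_sum h2).trans ?_
      rw [sum_add_distrib, ← mul_sum, sum_const, Nat.card_Ioc, nsmul_eq_mul, mul_one]
      have h3 := sum_Ioc_inv_sq_le_sub (α := ℝ) (by omega : ⌊D⌋₊ ≠ 0) hge
      have h4 : (0 : ℝ) ≤ ((Y : ℕ) : ℝ)⁻¹ := by positivity
      have h5 : ((⌊D⌋₊ : ℕ) : ℝ)⁻¹ ≤ 2 / D := by
        rw [inv_le_comm₀ (by exact_mod_cast hfl) (by positivity), inv_div]
        have h6 := Nat.lt_floor_add_one D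
        have h7 : (1 : ℝ) ≤ ⌊D⌋₊ := by exact_mod_cast hfl
        linarith
      have h6 : ((Y - ⌊D⌋₊ : ℕ) : ℝ) ≤ Y := by exact_mod_cast Nat.sub_le _ _
      have h7 : (h : ℝ) * ∑ d ∈ Ioc ⌊D⌋₊ Y, ((d : ℝ) ^ 2)⁻¹ ≤ h * (2 / D) :=
        mul_le_mul_of_nonneg_left (by linarith) hhpos.le
      have h8 : (h : ℝ) * (2 / D) = 2 * (h / D) := by ring
      linarith
  -- second class
  have hJ2 : ((N.filter (fun n => ¬ dd n ≤ Y)).card : ℝ) ≤ (2 : ℝ) ^ (22 * E.δ * i + 3) := by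
    set T : ℝ := (2 : ℝ) ^ (22 * E.δ * i + 3) with hT
    have hmem : ∀ n ∈ N.filter (fun n => ¬ dd n ≤ Y), n / dd n ^ 2 ∈ Icc 1 ⌊T⌋₊ := by
      intro n hn
      rw [mem_filter, not_le] at hn
      obtain ⟨h1, h2⟩ := hdd n hn.1
      obtain ⟨h3, h4⟩ := hNc n hn.1
      obtain ⟨t, ht⟩ := h1
      have hd0 : 0 < dd n := by
        have : (0 : ℝ) < dd n := by linarith
        exact_mod_cast this
      have hq : n / dd n ^ 2 = t := by
        have h := Nat.mul_div_cancel_left t (pow_pos hd0 2)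
        rw [← ht] at h
        exact h
      have ht0 : t ≠ 0 := by
        rintro rfl
        rw [mul_zero] at ht
        omega
      rw [mem_Icc, hq]
      refine ⟨by omega, Nat.le_floor ?_⟩
      have h5 : (h : ℝ) / D < dd n := by
        have h6 := Nat.lt_floor_add_one ((h : ℝ) / D)
        have h7 : ((Y + 1 : ℕ) : ℝ) ≤ dd n := by exact_mod_cast hn.2
        push_cast at h7
        linarith
      have h6 : (dd n : ℝ) ^ 2 * t ≤ (2 : ℝ) ^ ((i : ℝ) + 1) := by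
        have h7 : dd n ^ 2 * t ≤ 2 ^ (i + 1) := by rw [← ht]; omega
        have h8 : (dd n : ℝ) ^ 2 * t ≤ 2 ^ (i + 1) := by exact_mod_cast h7
        rw [← Real.rpow_natCast 2 (i + 1)] at h8
        push_cast at h8
        exact h8
      have h7 : (2 : ℝ) ^ ((1 - 22 * E.δ) * i - 2) ≤ (dd n : ℝ) ^ 2 := by
        have h8 : (2 : ℝ) ^ ((1 / 2 - 11 * E.δ) * i - 1) ≤ h / D := by
          rw [le_div_iff₀ hDpos, hD, ← Real.rpow_add (by norm_num)]
          refine le_trans (le_of_eq ?_) hh1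
          congr 1; ring
        have h9 : (2 : ℝ) ^ ((1 / 2 - 11 * E.δ) * i - 1) ≤ dd n := h8.trans h5.le
        calc (2 : ℝ) ^ ((1 - 22 * E.δ) * i - 2) =
            ((2 : ℝ) ^ ((1 / 2 - 11 * E.δ) * i - 1)) ^ 2 := by
              rw [sq, ← Real.rpow_add (by norm_num)]
              congr 1; ring
          _ ≤ (dd n : ℝ) ^ 2 := pow_le_pow_left₀ (by positivity) h9 2
      have h8 : (2 : ℝ) ^ ((1 - 22 * E.δ) * i - 2) * t ≤ (2 : ℝ) ^ ((i : ℝ) + 1) :=
        (mul_le_mul_of_nonneg_right h7 (Nat.cast_nonneg t)).trans h6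
      have h9 : (2 : ℝ) ^ ((i : ℝ) + 1) = (2 : ℝ) ^ ((1 - 22 * E.δ) * i - 2) * T := by
        rw [hT, ← Real.rpow_add (by norm_num)]
        congr 1; ring
      rw [h9] at h8
      exact le_of_mul_le_mul_left h8 (by positivity)
    have hinj : Set.InjOn (fun n => n / dd n ^ 2) (N.filter (fun n => ¬ dd n ≤ Y) : Finset ℕ) := by
      intro n hn n' hn' he
      have hn := (mem_filter.1 (mem_coe.1 hn)).1
      have hn' := (mem_filter.1 (mem_coe.1 hn')).1
      obtain ⟨h1, h2⟩ := hdd n hn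
      obtain ⟨h1', h2'⟩ := hdd n' hn'
      obtain ⟨h3, h4⟩ := hNc n hn
      obtain ⟨h3', h4'⟩ := hNc n' hn'
      obtain ⟨t, ht⟩ := h1
      obtain ⟨t', ht'⟩ := h1'
      have hd0 : 0 < dd n := by
        have : (0 : ℝ) < dd n := by linarith
        exact_mod_cast this
      have hd0' : 0 < dd n' := by
        have : (0 : ℝ) < dd n' := by linarith
        exact_mod_cast this
      simp only at he
      have hq : n / dd n ^ 2 = t := by
        have h := Nat.mul_div_cancel_left t (pow_pos hd0 2)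
        rw [← ht] at h
        exact h
      have hq' : n' / dd n' ^ 2 = t' := by
        have h := Nat.mul_div_cancel_left t' (pow_pos hd0' 2)
        rw [← ht'] at h
        exact h
      have htt : t' = t := by rw [← hq, ← hq', he]
      rw [htt] at ht'
      -- `d t > h`
      have hlow : ∀ d : ℕ, 2 ^ i < d ^ 2 * t → h < d * t := by
        intro d hd
        by_contra hcon
        push Not at hcon
        have ht1 : 1 ≤ t := by
          rcases Nat.eq_zero_or_pos t with h0 | h0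
          · rw [h0, mul_zero] at hd; omega
          · exact h0
        have e1 : d ^ 2 * t ≤ (d * t) * (d * t) := by
          calc d ^ 2 * t ≤ d ^ 2 * t * t := Nat.le_mul_of_pos_right _ ht1
            _ = (d * t) * (d * t) := by ring
        have e2 : (d * t) * (d * t) ≤ h * h := Nat.mul_le_mul hcon hcon
        omega
      -- compare
      have hcmp : ∀ d d' : ℕ, d < d' → A < d ^ 2 * t → d' ^ 2 * t ≤ A + h → False := by
        intro d d' hlt e1 e2
        have e3 : h < d * t := hlow d (by omega)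
        have e4 : d + 1 ≤ d' := hlt
        have e5 : (d + 1) ^ 2 * t ≤ d' ^ 2 * t :=
          Nat.mul_le_mul_right _ (Nat.pow_le_pow_left e4 2)
        have e6 : (d + 1) ^ 2 * t = d ^ 2 * t + d * t + (d * t + t) := by ring
        omega
      have hdeq : dd n = dd n' := by
        rcases lt_trichotomy (dd n) (dd n') with hlt | heq | hgt
        · exact (hcmp _ _ hlt (by rw [← ht]; exact h3) (by rw [← ht']; exact h4')).elim
        · exact heq
        · exact (hcmp _ _ hgt (by rw [← ht']; exact h3') (by rw [← ht]; exact h4)).elim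
      rw [ht, ht', hdeq]
    have h1 : (N.filter (fun n => ¬ dd n ≤ Y)).card ≤ (Icc 1 ⌊T⌋₊).card :=
      card_le_card_of_injOn _ (fun n hn => mem_coe.2 (hmem n (mem_coe.1 hn))) hinj
    rw [Nat.card_Icc, Nat.add_sub_cancel] at h1
    have h2 : ((N.filter (fun n => ¬ dd n ≤ Y)).card : ℝ) ≤ (⌊T⌋₊ : ℝ) := by exact_mod_cast h1
    exact h2.trans (Nat.floor_le (by positivity))
  have hcard : N.card = (N.filter (fun n => dd n ≤ Y)).card +
      (N.filter (fun n => ¬ dd n ≤ Y)).card :=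
    (card_filter_add_card_filter_not (fun n => dd n ≤ Y)).symm
  rw [hcard]
  push_cast
  linarith

theorem junk (E : Env) (hG : E.GBounds) : ∃ J : ℕ, ∀ j : ℕ, J ≤ j → ∀ i : ℕ, j ≤ i →
    ∀ k : ℕ, k < nc E.δ i →
    ∑ n ∈ (cell E.δ i k).filter (fun n => ∃ d : ℕ, d ^ 2 ∣ n ∧
      (2 : ℝ) ^ (10 * E.δ * (i : ℝ)) < d), E2c E j n / (n : ℝ) ≤ E.w i / 64 := by
  obtain ⟨J0, hJ0, hJ⟩ := hG
  have hδ := E.hδ
  have hδ1 : E.δ ≤ 1 / 100000 := by
    have := E.hδ'
    have := E.hτ'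
    linarith
  obtain ⟨J1, hJ1⟩ := poly_le_two_rpow (3 / 2 * E.δ) (by positivity) (22 * 64) 40
  refine ⟨J0 + J1 + 2, fun j hj i hij k hk => ?_⟩
  obtain ⟨-, h0, h0', hgu, hgh, hU, hH, -, -⟩ := hJ j (by omega)
  have hf := factor_le E (by omega) hgu hgh hU hH
  have hpoly := hJ1 i (by omega)
  have hcard := junk_card E i k hk
  have hi0 : (0 : ℝ) < i := by
    have : 0 < i := by omega
    exact_mod_cast this
  have hterm : ∀ n ∈ (cell E.δ i k).filter (fun n => ∃ d : ℕ, d ^ 2 ∣ n ∧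
      (2 : ℝ) ^ (10 * E.δ * (i : ℝ)) < d), E2c E j n / (n : ℝ) ≤
      2 * (2 : ℝ) ^ (9 * E.δ * i) / 2 ^ i := by
    intro n hn
    rw [mem_filter] at hn
    obtain ⟨h1, h2, _⟩ := cell_loc E.δ hδ i k n hk hn.1
    have h3 : E2c E j n ≤ 2 * (2 : ℝ) ^ (9 * E.δ * i) := by
      refine (E2c_le E h0 h0' hf n (by omega)).trans ?_
      have h4 : (n : ℝ) ≤ 2 ^ (i + 1) := by exact_mod_cast h2
      calc (n : ℝ) ^ (9 * E.δ) ≤ ((2 : ℝ) ^ (i + 1)) ^ (9 * E.δ) :=
            Real.rpow_le_rpow (by positivity) h4 (by positivity)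
        _ = (2 : ℝ) ^ (9 * E.δ) * (2 : ℝ) ^ (9 * E.δ * i) := by
            rw [← Real.rpow_natCast 2 (i + 1), ← Real.rpow_mul (by norm_num),
              ← Real.rpow_add (by norm_num)]
            push_cast
            ring_nf
        _ ≤ 2 * (2 : ℝ) ^ (9 * E.δ * i) := by
            apply mul_le_mul_of_nonneg_right _ (by positivity)
            calc (2 : ℝ) ^ (9 * E.δ) ≤ (2 : ℝ) ^ (1 : ℝ) :=
                  Real.rpow_le_rpow_of_exponent_le (by norm_num) (by linarith)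
              _ = 2 := Real.rpow_one 2
    have h5 : (2 : ℝ) ^ i ≤ n := by
      have : 2 ^ i ≤ n := by omega
      exact_mod_cast this
    exact div_le_div₀ (by positivity) h3 (by positivity) h5
  have hsum := sum_le_card_nsmul _ _ _ hterm
  refine hsum.trans ?_
  rw [nsmul_eq_mul]
  have hh2 : (hh E.δ i : ℝ) ≤ (2 : ℝ) ^ ((1 / 2 - E.δ) * i) :=
    Pool.Agent.W683.MO.hh_le (δ_half E) i
  have h1 : (((cell E.δ i k).filter (fun n => ∃ d : ℕ, d ^ 2 ∣ n ∧
      (2 : ℝ) ^ (10 * E.δ * (i : ℝ)) < d)).card : ℝ) * (2 * (2 : ℝ) ^ (9 * E.δ * i) / 2 ^ i) ≤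
      (3 * ((2 : ℝ) ^ ((1 / 2 - E.δ) * i) / (2 : ℝ) ^ (10 * E.δ * (i : ℝ))) +
        (2 : ℝ) ^ (22 * E.δ * i + 3)) * (2 * (2 : ℝ) ^ (9 * E.δ * i) / 2 ^ i) := by
    apply mul_le_mul_of_nonneg_right _ (by positivity)
    refine hcard.trans ?_
    gcongr
  refine h1.trans ?_
  have e1 : (3 * ((2 : ℝ) ^ ((1 / 2 - E.δ) * i) / (2 : ℝ) ^ (10 * E.δ * (i : ℝ))) +
        (2 : ℝ) ^ (22 * E.δ * i + 3)) * (2 * (2 : ℝ) ^ (9 * E.δ * i) / 2 ^ i) =
      6 * (2 : ℝ) ^ ((1 / 2 - E.δ) * i - 10 * E.δ * i + 9 * E.δ * i - i) +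
      16 * (2 : ℝ) ^ (22 * E.δ * i + 9 * E.δ * i - i) := by
    rw [← Real.rpow_natCast 2 i, Real.rpow_sub (by norm_num) _ (i : ℝ),
      Real.rpow_sub (by norm_num) _ (i : ℝ), Real.rpow_add (by norm_num) _ (9 * E.δ * i),
      Real.rpow_sub (by norm_num), Real.rpow_add (by norm_num) (22 * E.δ * i) (3 : ℝ),
      Real.rpow_add (by norm_num) (22 * E.δ * i) (9 * E.δ * i)]
    have : (2 : ℝ) ^ (3 : ℝ) = 8 := by norm_num
    rw [this]
    ring
  rw [e1]
  have e2 : (2 : ℝ) ^ ((1 / 2 - E.δ) * i - 10 * E.δ * i + 9 * E.δ * i - i) ≤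
      (2 : ℝ) ^ (-(1 / 2 + E.δ / 2) * i - 3 / 2 * E.δ * i) := by
    apply Real.rpow_le_rpow_of_exponent_le (by norm_num)
    nlinarith
  have e3 : (2 : ℝ) ^ (22 * E.δ * i + 9 * E.δ * i - i) ≤
      (2 : ℝ) ^ (-(1 / 2 + E.δ / 2) * i - 3 / 2 * E.δ * i) := by
    apply Real.rpow_le_rpow_of_exponent_le (by norm_num)
    nlinarith
  have e4 : (2 : ℝ) ^ (-(1 / 2 + E.δ / 2) * i - 3 / 2 * E.δ * i) * (22 * 64 * (i : ℝ) ^ 40) ≤
      (2 : ℝ) ^ (-(1 / 2 + E.δ / 2) * i) := by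
    calc (2 : ℝ) ^ (-(1 / 2 + E.δ / 2) * i - 3 / 2 * E.δ * i) * (22 * 64 * (i : ℝ) ^ 40) ≤
        (2 : ℝ) ^ (-(1 / 2 + E.δ / 2) * i - 3 / 2 * E.δ * i) * (2 : ℝ) ^ (3 / 2 * E.δ * i) := by
          gcongr
      _ = (2 : ℝ) ^ (-(1 / 2 + E.δ / 2) * i) := by
          rw [← Real.rpow_add (by norm_num)]
          congr 1; ring
  unfold Env.w
  rw [div_div, le_div_iff₀ (by positivity)]
  have h6 : (0 : ℝ) < (i : ℝ) ^ 40 * 64 := by positivity
  calc (6 * (2 : ℝ) ^ ((1 / 2 - E.δ) * i - 10 * E.δ * i + 9 * E.δ * i - i) +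
      16 * (2 : ℝ) ^ (22 * E.δ * i + 9 * E.δ * i - i)) * ((i : ℝ) ^ 40 * 64) ≤
      (22 * (2 : ℝ) ^ (-(1 / 2 + E.δ / 2) * i - 3 / 2 * E.δ * i)) * ((i : ℝ) ^ 40 * 64) := by
        apply mul_le_mul_of_nonneg_right _ h6.le
        linarith
    _ = (2 : ℝ) ^ (-(1 / 2 + E.δ / 2) * i - 3 / 2 * E.δ * i) * (22 * 64 * (i : ℝ) ^ 40) := by ring
    _ ≤ _ := e4

end Pool.Agent.H421.CMO
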