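import Mathlib
import Pool.Agent.H370R2.DirGood

/-!
# MP_768c9c_nt: zeros of Dirichlet `L`-functions to the right of the critical line
-/

set_option autoImplicit false

namespace Pool.Agent.H421.CMO

open Complex Filter Topology Set MeasureTheory

variable {q : ℕ} [NeZero q] {χ : DirichletCharacter ℂ q}

/-- character sums -/
noncomputable def ASum (χ : DirichletCharacter ℂ q) (n : ℕ) : ℂ :=
  ∑ k ∈ Finset.Icc 1 n, χ (k : ZMod q)

lemma tail_int {s : ℂ} (hs : 0 < s.re) {c : ℝ} (hc : 0 < c) :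
    s * ∫ u in Ioi c, (u : ℂ) ^ (-s - 1) = (c : ℂ) ^ (-s) := by
  have hs0 : s ≠ 0 := by
    rintro rfl
    simp at hs
  rw [integral_Ioi_cpow_of_lt (by simp only [Complex.sub_re, Complex.neg_re, Complex.one_re]; linarith) hc, show -s - 1 + 1 = -s by ring]
  field_simp

lemma intA {s : ℂ} (hs : 0 < s.re) (B : ℕ → ℂ) {K : ℝ} (hB : ∀ n, ‖B n‖ ≤ K) {c : ℝ}
    (hc : 0 < c) : IntegrableOn (fun u : ℝ => B ⌊u⌋₊ * (u : ℂ) ^ (-s - 1)) (Ioi c) := by
  refine Integrable.bdd_mul (c := K) (integrableOn_Ioi_cpow_of_lt (by simp only [Complex.sub_re, Complex.neg_re, Complex.one_re]; linarith) hc) ?_ ?_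
  · exact ((measurable_from_nat (f := B)).comp Nat.measurable_floor).aestronglyMeasurable
  · exact Filter.Eventually.of_forall fun u => hB _

/-- the tail -/
noncomputable def GT (χ : DirichletCharacter ℂ q) (s : ℂ) (N : ℕ) : ℂ :=
  s * ∫ u in Ioi (N : ℝ), (ASum χ ⌊u⌋₊ - ASum χ N) * (u : ℂ) ^ (-s - 1)

lemma GT_step (hχ : χ ≠ 1) {s : ℂ} (hs : 0 < s.re) {N : ℕ} (hN : 1 ≤ N) :
    GT χ s N = GT χ s (N + 1) + χ ((N + 1 : ℕ) : ZMod q) * ((N + 1 : ℕ) : ℂ) ^ (-s) := by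
  have hN0 : (0 : ℝ) < N := by exact_mod_cast hN
  have hb : ∀ M n : ℕ, ‖ASum χ n - ASum χ M‖ ≤ 2 * (q + 1 : ℝ) := fun M n => by
    have h1 := H370.DL.norm_sum_Icc_le hχ n
    have h2 := H370.DL.norm_sum_Icc_le hχ M
    refine (norm_sub_le _ _).trans ?_
    unfold ASum
    linarith
  have hint : ∀ (M : ℕ) (c : ℝ), 0 < c →
      IntegrableOn (fun u : ℝ => (ASum χ ⌊u⌋₊ - ASum χ M) * (u : ℂ) ^ (-s - 1)) (Ioi c) :=
    fun M c hc => intA hs (fun n => ASum χ n - ASum χ M) (hb M) hc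
  have hsplit : Ioi (N : ℝ) = Ioc (N : ℝ) ((N : ℝ) + 1) ∪ Ioi ((N : ℝ) + 1) := by
    rw [Ioc_union_Ioi_eq_Ioi (by linarith)]
  have h1 : ∫ u in Ioi (N : ℝ), (ASum χ ⌊u⌋₊ - ASum χ N) * (u : ℂ) ^ (-s - 1) =
      ∫ u in Ioi ((N : ℝ) + 1), (ASum χ ⌊u⌋₊ - ASum χ N) * (u : ℂ) ^ (-s - 1) := by
    rw [hsplit, setIntegral_union (Ioc_disjoint_Ioi le_rfl) measurableSet_Ioi
      ((hint N N hN0).mono_set Ioc_subset_Ioi_self) (hint N _ (by linarith))]
    have h2 : ∫ u in Ioc (N : ℝ) ((N : ℝ) + 1), (ASum χ ⌊u⌋₊ - ASum χ N) * (u : ℂ) ^ (-s - 1) = 0 := by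
      rw [integral_Ioc_eq_integral_Ioo]
      apply setIntegral_eq_zero_of_forall_eq_zero
      intro u hu
      have h3 : ⌊u⌋₊ = N := by
        rw [Nat.floor_eq_iff (by linarith [hu.1])]
        exact ⟨hu.1.le, hu.2⟩
      rw [h3, sub_self, zero_mul]
    rw [h2, zero_add]
  have h4 : ∫ u in Ioi ((N : ℝ) + 1), (ASum χ ⌊u⌋₊ - ASum χ N) * (u : ℂ) ^ (-s - 1) =
      (∫ u in Ioi ((N : ℝ) + 1), (ASum χ ⌊u⌋₊ - ASum χ (N + 1)) * (u : ℂ) ^ (-s - 1)) +
        χ ((N + 1 : ℕ) : ZMod q) * ∫ u in Ioi ((N : ℝ) + 1), (u : ℂ) ^ (-s - 1) := by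
    rw [← integral_const_mul, ← integral_add (hint (N + 1) _ (by linarith))
      ((integrableOn_Ioi_cpow_of_lt (by simp only [Complex.sub_re, Complex.neg_re, Complex.one_re]; linarith) (by linarith)).const_mul _)]
    apply setIntegral_congr_fun measurableSet_Ioi
    intro u _
    have h5 : ASum χ (N + 1) = ASum χ N + χ ((N + 1 : ℕ) : ZMod q) := by
      unfold ASum
      rw [Finset.sum_Icc_succ_top (by omega)]
    simp only
    rw [h5]
    ring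
  unfold GT
  rw [h1, h4, mul_add]
  congr 1
  · push_cast
    rfl
  · have h6 := tail_int hs (c := (N : ℝ) + 1) (by linarith)
    rw [mul_left_comm, h6]
    push_cast
    rfl

lemma sum_add_GT (hχ : χ ≠ 1) {s : ℂ} (hs : 0 < s.re) {N : ℕ} (hN : 1 ≤ N) :
    ∑ n ∈ Finset.Icc 1 N, χ (n : ZMod q) * (n : ℂ) ^ (-s) + GT χ s N =
      DirichletCharacter.LFunction χ s := by
  induction N, hN using Nat.le_induction with
  | base =>
    have hK : ∀ n : ℕ, ‖ASum χ n‖ ≤ (q + 1 : ℝ) := fun n => H370.DL.norm_sum_Icc_le hχ n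
    rw [H370.DL.L_integral hχ hs]
    have h1 : ∑ n ∈ Finset.Icc (1 : ℕ) 1, χ (n : ZMod q) * (n : ℂ) ^ (-s) = ASum χ 1 := by
      unfold ASum
      simp
    rw [h1]
    unfold GT
    have h2 : ∫ u in Ioi ((1 : ℕ) : ℝ), (ASum χ ⌊u⌋₊ - ASum χ 1) * (u : ℂ) ^ (-s - 1) =
        (∫ u in Ioi (1 : ℝ), ASum χ ⌊u⌋₊ * (u : ℂ) ^ (-s - 1)) -
          ASum χ 1 * ∫ u in Ioi (1 : ℝ), (u : ℂ) ^ (-s - 1) := by
      rw [Nat.cast_one, ← integral_const_mul, ← integral_sub (intA hs _ hK one_pos)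
        ((integrableOn_Ioi_cpow_of_lt (by simp only [Complex.sub_re, Complex.neg_re, Complex.one_re]; linarith) one_pos).const_mul _)]
      apply setIntegral_congr_fun measurableSet_Ioi
      intro u _
      simp only
      ring
    have h3 := tail_int hs (c := (1 : ℝ)) one_pos
    rw [h2, mul_sub, mul_left_comm s (ASum χ 1), h3]
    unfold ASum
    simp
  | succ N hN ih =>
    rw [Finset.sum_Icc_succ_top (by omega), ← ih, GT_step hχ hs hN]
    ring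

lemma GT_bound (hχ : χ ≠ 1) {s : ℂ} (hs : 0 < s.re) {N : ℕ} (hN : 1 ≤ N) :
    ‖GT χ s N‖ ≤ ‖s‖ * (2 * (q + 1) / s.re) * (N : ℝ) ^ (-s.re) := by
  have hN0 : (0 : ℝ) < N := by exact_mod_cast hN
  have hb : ∀ n : ℕ, ‖ASum χ n - ASum χ N‖ ≤ 2 * (q + 1 : ℝ) := fun n => by
    have h1 := H370.DL.norm_sum_Icc_le hχ n
    have h2 := H370.DL.norm_sum_Icc_le hχ N
    refine (norm_sub_le _ _).trans ?_
    unfold ASum
    linarith
  unfold GT
  rw [norm_mul, mul_assoc]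
  apply mul_le_mul_of_nonneg_left _ (norm_nonneg s)
  have h1 : ∫ u in Ioi (N : ℝ), (2 * (q + 1) : ℝ) * u ^ (-s.re - 1) =
      2 * (q + 1) / s.re * (N : ℝ) ^ (-s.re) := by
    rw [integral_const_mul, integral_Ioi_rpow_of_lt (by linarith) hN0,
      show -s.re - 1 + 1 = -s.re by ring]
    have : s.re ≠ 0 := hs.ne'
    field_simp
  rw [← h1]
  refine norm_integral_le_of_norm_le ?_ ?_
  · exact (integrableOn_Ioi_rpow_of_lt (by linarith) hN0).const_mul _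
  · refine (ae_restrict_iff' measurableSet_Ioi).mpr (Filter.Eventually.of_forall fun u hu => ?_)
    have hu0 : (0 : ℝ) < u := lt_trans hN0 hu
    rw [norm_mul, norm_cpow_eq_rpow_re_of_pos hu0]
    have : (-s - 1).re = -s.re - 1 := by simp
    rw [this]
    exact mul_le_mul_of_nonneg_right (hb _) (by positivity)

/-- a zero of `L(s, χ)` gives small partial sums of `χ(n) n^(-s)` -/
theorem lzero_bound (hχ : χ ≠ 1) {s : ℂ} (hs : 0 < s.re)
    (hz : DirichletCharacter.LFunction χ s = 0) {N : ℕ} (hN : 1 ≤ N) :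
    ‖∑ n ∈ Finset.Icc 1 N, χ (n : ZMod q) * (n : ℂ) ^ (-s)‖ ≤
      ‖s‖ * (2 * (q + 1) / s.re) * (N : ℝ) ^ (-s.re) := by
  have h1 := sum_add_GT hχ hs hN
  rw [hz] at h1
  have h2 : ∑ n ∈ Finset.Icc 1 N, χ (n : ZMod q) * (n : ℂ) ^ (-s) = -GT χ s N :=
    eq_neg_of_add_eq_zero_left h1
  rw [h2, norm_neg]
  exact GT_bound hχ hs hN

end Pool.Agent.H421.CMO
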