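import Pool.Agent.H421_CMO.Jk

/-!
# MP_768c9c_nt: the contribution of the numbers which are not squarefree
-/

set_option autoImplicit false

namespace Pool.Agent.H421.CMO

open Finset Filter Topology
open scoped Classical
open Pool.Agent.W76.MO

/-- pointwise bound for numbers without large square divisors -/
lemma point_ns (E : Env) (j i n : ℕ) (hu : ∀ p, 0 ≤ E.gu j p) (hh : ∀ p, 0 ≤ E.gh j p)
    (hn : n ≠ 0) (hd : ∀ d : ℕ, d ^ 2 ∣ n → (d : ℝ) ≤ (2 : ℝ) ^ (10 * E.δ * (i : ℝ))) :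
    E2c E j n / (n : ℝ) ≤ (1 / (n : ℝ)) * cm (fun p => 1 + 2 * (p * E.gs j i p)) n +
      2 * (∑ p ∈ n.primeFactors.filter (fun p : ℕ => (2 : ℝ) ^ (3 / 5 * (i : ℝ)) < p),
        E.gu j p * (E2c E j (n / p) / ((n / p : ℕ) : ℝ)) +
      ∑ q ∈ n.primeFactors.filter (fun q : ℕ => (2 : ℝ) ^ (1 / 20 * (i : ℝ)) < q),
        E.gh j q * (E2c E j (n / q) / ((n / q : ℕ) : ℝ))) := by
  have hδ := E.hδ
  have hδ1 : E.δ ≤ 1 / 100000 := by
    have := E.hδ'
    have := E.hτ'
    linarith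
  have hi0 : (0 : ℝ) ≤ i := Nat.cast_nonneg i
  have hs := split_cm (fun p => p * E.gl j i p) (fun p => p * E.gs j i p)
    (fun p => mul_nonneg (Nat.cast_nonneg p) (E.gl_nonneg j i p (hu p) (hh p)))
    (fun p => mul_nonneg (Nat.cast_nonneg p) (E.gs_nonneg j i p (hu p) (hh p))) n hn
    n.primeFactors (Subset.refl _)
  have e1 : (fun p : ℕ => 1 + 2 * ((p : ℝ) * E.gl j i p + (p : ℝ) * E.gs j i p)) =
      fun p : ℕ => 1 + 2 * ((p : ℝ) * E.g j p) := by
    funext p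
    rw [← E.gl_add_gs j i p]; ring
  simp only [e1] at hs
  have hfact : ∀ p ∈ n.primeFactors, (n.factorization p : ℝ) * ((p : ℝ) * E.gl j i p *
      cm (fun p => 1 + 2 * ((p : ℝ) * E.g j p)) (n / p)) =
      (p : ℝ) * E.gl j i p * E2c E j (n / p) := by
    intro p hp
    have hpp := Nat.prime_of_mem_primeFactors hp
    have hpd := Nat.dvd_of_mem_primeFactors hp
    by_cases hgl : E.gl j i p = 0
    · rw [hgl]; simp
    · have hbig : (2 : ℝ) ^ (1 / 20 * (i : ℝ)) < p := by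
        by_contra hcon
        have h1 : (2 : ℝ) ^ (1 / 20 * (i : ℝ)) ≤ (2 : ℝ) ^ (3 / 5 * (i : ℝ)) := by
          apply Real.rpow_le_rpow_of_exponent_le (by norm_num)
          linarith
        apply hgl
        unfold Env.gl
        rw [if_neg hcon, if_neg (fun h => hcon (lt_of_le_of_lt h1 h)), add_zero]
      have h2 : n.factorization p = 1 := by
        have h3 : 1 ≤ n.factorization p :=
          (hpp.dvd_iff_one_le_factorization hn).1 hpd
        by_contra h4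
        have h5 : 2 ≤ n.factorization p := by omega
        have h6 : p ^ 2 ∣ n := (hpp.pow_dvd_iff_le_factorization hn).2 h5
        have h7 := hd p h6
        have h8 : (2 : ℝ) ^ (10 * E.δ * (i : ℝ)) ≤ (2 : ℝ) ^ (1 / 20 * (i : ℝ)) := by
          apply Real.rpow_le_rpow_of_exponent_le (by norm_num)
          nlinarith
        linarith
      rw [h2]
      unfold E2c
      push_cast
      ring
  rw [sum_congr rfl hfact] at hs
  have hn0 : (n : ℝ) ≠ 0 := by exact_mod_cast hn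
  have hn1 : (0 : ℝ) < n := lt_of_le_of_ne (Nat.cast_nonneg n) (Ne.symm hn0)
  have h1 : E2c E j n / (n : ℝ) ≤ (1 / (n : ℝ)) * (cm (fun p => 1 + 2 * (p * E.gs j i p)) n +
      2 * ∑ p ∈ n.primeFactors, (p : ℝ) * E.gl j i p * E2c E j (n / p)) := by
    rw [div_eq_mul_inv, mul_comm, ← one_div]
    exact mul_le_mul_of_nonneg_left hs (by positivity)
  refine h1.trans (le_of_eq ?_)
  rw [mul_add]
  congr 1
  rw [sum_filter, sum_filter, ← sum_add_distrib, ← mul_assoc, mul_comm (1 / (n : ℝ)) 2, mul_assoc,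
    mul_sum]
  congr 1
  refine sum_congr rfl fun p hp => ?_
  have hpp := Nat.prime_of_mem_primeFactors hp
  have hp0 : (p : ℝ) ≠ 0 := by exact_mod_cast hpp.ne_zero
  rw [cast_div_prime n p hp]
  have h2 : ∀ c : ℝ, (1 / (n : ℝ)) * (p * c * E2c E j (n / p)) = c * (E2c E j (n / p) / ((n : ℝ) / p)) := by
    intro c
    field_simp
  unfold Env.gl
  by_cases k1 : (2 : ℝ) ^ (3 / 5 * (i : ℝ)) < p
  · by_cases k2 : (2 : ℝ) ^ (1 / 20 * (i : ℝ)) < p
    · simp only [if_pos k1, if_pos k2]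
      rw [h2]; ring
    · simp only [if_pos k1, if_neg k2]
      rw [h2]; ring
  · by_cases k2 : (2 : ℝ) ^ (1 / 20 * (i : ℝ)) < p
    · simp only [if_neg k1, if_pos k2]
      rw [h2]; ring
    · simp only [if_neg k1, if_neg k2]
      rw [h2]; ring

/-- the contribution of the numbers which are not squarefree is small -/
theorem ns_part (E : Env) (hHC : E.HCount) (hG : E.GBounds) (hPB : Env.PairB E.τ E.δ) :
    ∃ R₀ : ℕ, ∀ R : ℕ, R₀ ≤ R → ∃ J : ℕ, ∀ j : ℕ, J ≤ j → ∀ i k : ℕ, j ≤ i →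
    k < nc E.δ i → ∑ n ∈ ns E R i k, E2c E j n / (n : ℝ) ≤ E.w i / 4 := by
  obtain ⟨R1, hU⟩ := upart_ns E hG
  obtain ⟨R2, hH⟩ := HXc E hHC hG hPB
  obtain ⟨J3, hS⟩ := small_ns E hG
  obtain ⟨J4, hJk⟩ := junk E hG
  obtain ⟨J0, hJ0, hG⟩ := hG
  refine ⟨max R1 R2, fun R hR => ?_⟩
  obtain ⟨J1, hU⟩ := hU R ((le_max_left _ _).trans hR)
  obtain ⟨J2, hH⟩ := hH R ((le_max_right _ _).trans hR)
  refine ⟨J0 + J1 + J2 + J3 + J4, fun j hj i k hi hk => ?_⟩
  obtain ⟨_, hu0, hh0, _⟩ := hG j (by omega)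
  have a1 := hU j (by omega) i hi k hk
  have a2 := hH j (by omega) i hi k hk
  have a3 := hS j (by omega) i hi k hk
  have a4 := hJk j (by omega) i hi k hk
  have hw := E.w_nonneg i
  have hS0 : ∀ n : ℕ, 0 ≤ (1 / (n : ℝ)) * cm (fun p => 1 + 2 * (p * E.gs j i p)) n := by
    intro n
    apply mul_nonneg (by positivity)
    apply cm_nonneg
    intro p _
    have := E.gs_nonneg j i p (hu0 p) (hh0 p)
    positivity
  have hE0 : ∀ n : ℕ, 0 ≤ E2c E j n / (n : ℝ) := fun n =>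
    div_nonneg (E2c_nonneg E hu0 hh0 n) (Nat.cast_nonneg n)
  set Jn : ℕ → Prop := fun n => ∃ d : ℕ, d ^ 2 ∣ n ∧ (2 : ℝ) ^ (10 * E.δ * (i : ℝ)) < d with hJn
  set G1 : ℕ → ℝ := fun n =>
    ∑ p ∈ n.primeFactors.filter (fun p : ℕ => (2 : ℝ) ^ (3 / 5 * (i : ℝ)) < p),
        E.gu j p * (E2c E j (n / p) / ((n / p : ℕ) : ℝ)) with hG1
  set G2 : ℕ → ℝ := fun n =>
    ∑ q ∈ n.primeFactors.filter (fun q : ℕ => (2 : ℝ) ^ (1 / 20 * (i : ℝ)) < q),
        E.gh j q * (E2c E j (n / q) / ((n / q : ℕ) : ℝ)) with hG2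
  have hG10 : ∀ n, 0 ≤ G1 n := fun n => sum_nonneg fun p _ => mul_nonneg (hu0 p) (hE0 _)
  have hG20 : ∀ n, 0 ≤ G2 n := fun n => sum_nonneg fun p _ => mul_nonneg (hh0 p) (hE0 _)
  have hnsc : ∀ n ∈ ns E R i k, n ∈ cell E.δ i k ∧ ¬ Squarefree n := by
    intro n hn
    unfold ns at hn
    rw [mem_filter] at hn
    exact ⟨hn.1, hn.2.1⟩
  rw [← sum_filter_add_sum_filter_not (ns E R i k) Jn]
  have b1 : ∑ n ∈ (ns E R i k).filter Jn, E2c E j n / (n : ℝ) ≤ E.w i / 64 := by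
    refine le_trans (sum_le_sum_of_subset_of_nonneg ?_ fun n _ _ => hE0 n) a4
    intro n hn
    rw [mem_filter] at hn ⊢
    exact ⟨(hnsc n hn.1).1, hn.2⟩
  have b2 : ∑ n ∈ (ns E R i k).filter (fun n => ¬ Jn n), E2c E j n / (n : ℝ) ≤
      E.w i / 64 + 2 * (E.w i / 64 + 3 * (E.w i / 64)) := by
    calc ∑ n ∈ (ns E R i k).filter (fun n => ¬ Jn n), E2c E j n / (n : ℝ)
        ≤ ∑ n ∈ (ns E R i k).filter (fun n => ¬ Jn n),
          ((1 / (n : ℝ)) * cm (fun p => 1 + 2 * (p * E.gs j i p)) n + 2 * (G1 n + G2 n)) := by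
          apply sum_le_sum
          intro n hn
          rw [mem_filter] at hn
          have hc := cell_loc E.δ E.hδ i k n hk (hnsc n hn.1).1
          apply point_ns E j i n hu0 hh0 (by omega)
          intro d hd
          by_contra hcon
          push Not at hcon
          exact hn.2 ⟨d, hd, hcon⟩
      _ = ∑ n ∈ (ns E R i k).filter (fun n => ¬ Jn n),
          (1 / (n : ℝ)) * cm (fun p => 1 + 2 * (p * E.gs j i p)) n +
          2 * (∑ n ∈ (ns E R i k).filter (fun n => ¬ Jn n), G1 n +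
            ∑ n ∈ (ns E R i k).filter (fun n => ¬ Jn n), G2 n) := by
          rw [sum_add_distrib, ← mul_sum, sum_add_distrib]
      _ ≤ E.w i / 64 + 2 * (E.w i / 64 + 3 * (E.w i / 64)) := by
          have c1 : ∑ n ∈ (ns E R i k).filter (fun n => ¬ Jn n),
              (1 / (n : ℝ)) * cm (fun p => 1 + 2 * (p * E.gs j i p)) n ≤ E.w i / 64 := by
            refine le_trans (sum_le_sum_of_subset_of_nonneg ?_ fun n _ _ => hS0 n) a3
            intro n hn
            rw [mem_filter] at hn ⊢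
            refine ⟨(hnsc n hn.1).1, (hnsc n hn.1).2, fun d hd => ?_⟩
            by_contra hcon
            push Not at hcon
            exact hn.2 ⟨d, hd, hcon⟩
          have c2 : ∑ n ∈ (ns E R i k).filter (fun n => ¬ Jn n), G1 n ≤ E.w i / 64 :=
            le_trans (sum_le_sum_of_subset_of_nonneg (filter_subset _ _) fun n _ _ => hG10 n) a1
          have c3 : ∑ n ∈ (ns E R i k).filter (fun n => ¬ Jn n), G2 n ≤ 3 * (E.w i / 64) :=
            le_trans (sum_le_sum_of_subset_of_nonneg (filter_subset _ _) fun n _ _ => hG20 n) a2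
          linarith
  linarith

end Pool.Agent.H421.CMO
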