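import Pool.Agent.H421_CMO.BI

/-!
# MP_768c9c_nt: the small control primes at numbers which are not squarefree
-/

set_option autoImplicit false

namespace Pool.Agent.H421.CMO

open Finset Filter Topology
open scoped Classical
open Pool.Agent.W76.MO
open Pool.Agent.W683.MO (large A_bound gu_nonneg gh_nonneg lt_hh exp_id1 δ_half w_nonneg cell_sub)
open Pool.Agent.W640.MO (factor_le)

lemma gs_le_g (E : Env) (j i p : ℕ) : E.gs j i p ≤ E.g j p := by
  have h1 := gu_nonneg E j p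
  have h2 := gh_nonneg E j p
  unfold Env.gs Env.g
  split_ifs <;> linarith

lemma gs_nonneg' (E : Env) (j i p : ℕ) : 0 ≤ E.gs j i p :=
  E.gs_nonneg j i p (gu_nonneg E j p) (gh_nonneg E j p)

/-- the product over the small primes of a squarefree number -/
lemma prod_split (E : Env) (j i m : ℕ) (hm : Squarefree m) :
    cm (fun p => 1 + 2 * (p * E.gs j i p)) m ≤
      (∏ p ∈ m.primeFactors.filter (fun p : ℕ => (p : ℝ) ≤ (2 : ℝ) ^ (3 / 5 * (i : ℝ))),
        (1 + 2 * (p * E.gu j p))) *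
      ∏ p ∈ m.primeFactors.filter
        (fun p : ℕ => (p : ℝ) ≤ (2 : ℝ) ^ (1 / 20 * (i : ℝ))), (1 + 2 * (p * E.gh j p)) := by
  rw [cm_squarefree _ hm, prod_filter, prod_filter, ← prod_mul_distrib]
  apply Finset.prod_le_prod
  · intro p _
    have := gs_nonneg' E j i p
    positivity
  · intro p _
    unfold Env.gs
    have h3 : 0 ≤ (p : ℝ) * E.gu j p := mul_nonneg (Nat.cast_nonneg p) (gu_nonneg E j p)
    have h4 : 0 ≤ (p : ℝ) * E.gh j p := mul_nonneg (Nat.cast_nonneg p) (gh_nonneg E j p)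
    split_ifs
    · nlinarith [mul_nonneg h3 h4]
    · nlinarith
    · nlinarith
    · nlinarith

theorem small_ns (E : Env) (hG : E.GBounds) : ∃ J : ℕ, ∀ j : ℕ, J ≤ j → ∀ i : ℕ, j ≤ i →
    ∀ k : ℕ, k < nc E.δ i →
    ∑ n ∈ (cell E.δ i k).filter (fun n => ¬ Squarefree n ∧
        ∀ d : ℕ, d ^ 2 ∣ n → (d : ℝ) ≤ (2 : ℝ) ^ (10 * E.δ * (i : ℝ))),
      (1 / (n : ℝ)) * cm (fun p => 1 + 2 * (p * E.gs j i p)) n ≤ E.w i / 64 := by
  obtain ⟨JA, -, hA⟩ := A_bound E hG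
  obtain ⟨JB, -, hB⟩ := B_int E hG
  obtain ⟨J0, hJ0, hJ⟩ := hG
  set K : ℝ := ∑' n : ℕ, (n : ℝ) ^ (-(3 / 2) : ℝ) with hK
  have hsum : Summable (fun n : ℕ => (n : ℝ) ^ (-(3 / 2) : ℝ)) :=
    Real.summable_nat_rpow.2 (by norm_num)
  have hKle : ∀ S : Finset ℕ, ∑ n ∈ S, (n : ℝ) ^ (-(3 / 2) : ℝ) ≤ K := fun S =>
    hsum.sum_le_tsum S (fun n _ => by positivity)
  have hK0 : 0 ≤ K := by simpa using hKle ∅
  refine ⟨JA + JB + J0 + 10 + ⌈640 * K⌉₊, fun j hj i hij k hk => ?_⟩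
  obtain ⟨-, -, -, hgu, hgh, hU, hH, -, -⟩ := hJ j (by omega)
  have hA' := hA j (by omega) i hij
  have hB' := hB j (by omega) i hij
  have hf := factor_le E (by omega) hgu hgh hU hH
  have hδ := E.hδ
  have hδ1 : E.δ ≤ 1 / 100000 := by
    have := E.hδ'
    have := E.hτ'
    linarith
  have hi10 : (10 : ℝ) ≤ i := by exact_mod_cast (by omega : 10 ≤ i)
  have hiK : 640 * K ≤ i := by
    have h1 : ⌈640 * K⌉₊ ≤ i := by omega
    exact (Nat.le_ceil _).trans (by exact_mod_cast h1)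
  set h := hh E.δ i with hhd
  set A := 2 ^ i + k * h with hAd
  set D : ℝ := (2 : ℝ) ^ (10 * E.δ * (i : ℝ)) with hD
  have hDpos : 0 < D := by positivity
  have hcell : cell E.δ i k = Ioc A (A + h) := by
    unfold cell
    rw [hAd, ← hhd]
    congr 1
    ring
  have hAh : A + h ≤ 2 ^ (i + 1) := by
    have h1 : nc E.δ i * h = 2 ^ i := nc_mul E.δ hδ i
    have h2 : (k + 1) * h ≤ nc E.δ i * h := Nat.mul_le_mul_right _ hk
    have h3 : (k + 1) * h = k * h + h := by ring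
    have h4 : 2 ^ (i + 1) = 2 * 2 ^ i := by ring
    omega
  set a : ℝ := (2 : ℝ) ^ (E.δ / 2 * i) / (i : ℝ) ^ 50 with ha
  have hapos : 0 < a := by positivity
  set B : ℕ → ℝ := fun m => ∏ p ∈ m.primeFactors.filter
        (fun p : ℕ => (p : ℝ) ≤ (2 : ℝ) ^ (1 / 20 * (i : ℝ))), (1 + 2 * (p * E.gh j p)) with hBd
  have hB0 : ∀ m, 0 ≤ B m := by
    intro m
    apply prod_nonneg
    intro p _
    have := gh_nonneg E j p
    positivity
  have hdec : ∀ n : ℕ, ∃ x : ℕ × ℕ, x.2 ^ 2 * x.1 = n ∧ Squarefree x.1 := by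
    intro n
    obtain ⟨m, d, h1, h2⟩ := Nat.sq_mul_squarefree n
    exact ⟨(m, d), h1, h2⟩
  choose dc hdc1 hdc2 using hdec
  set N := (cell E.δ i k).filter (fun n => ¬ Squarefree n ∧
        ∀ d : ℕ, d ^ 2 ∣ n → (d : ℝ) ≤ D) with hN
  have hNmem : ∀ n ∈ N, A < n ∧ n ≤ A + h ∧ 2 ≤ (dc n).2 ∧ ((dc n).2 : ℝ) ≤ D ∧ 1 ≤ (dc n).1 := by
    intro n hn
    rw [hN, mem_filter, hcell, mem_Ioc] at hn
    obtain ⟨⟨h1, h2⟩, h3, h4⟩ := hn
    have e := hdc1 n
    have hd0 : (dc n).2 ≠ 0 := by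
      intro h0
      rw [h0] at e
      simp at e
      omega
    have hm0 : (dc n).1 ≠ 0 := (hdc2 n).ne_zero
    have hd1 : (dc n).2 ≠ 1 := by
      intro h0
      rw [h0, one_pow, one_mul] at e
      rw [← e] at h3
      exact h3 (hdc2 n)
    exact ⟨h1, h2, by omega, h4 _ (Dvd.intro _ e), by omega⟩
  -- sum over the square divisors
  have hmaps : ∀ n ∈ N, (dc n).2 ∈ Icc 2 ⌊D⌋₊ := by
    intro n hn
    obtain ⟨_, _, h3, h4, _⟩ := hNmem n hn
    rw [mem_Icc]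
    exact ⟨h3, Nat.le_floor h4⟩
  rw [← Finset.sum_fiberwise_of_maps_to hmaps]
  have hd : ∀ d ∈ Icc 2 ⌊D⌋₊, ∑ n ∈ N.filter (fun n => (dc n).2 = d),
      (1 / (n : ℝ)) * cm (fun p => 1 + 2 * (p * E.gs j i p)) n ≤
      (1 / 2 ^ i * a * (10 * h)) * (d : ℝ) ^ (-(3 / 2) : ℝ) := by
    intro d hd
    rw [mem_Icc] at hd
    have hd2 : (2 : ℝ) ≤ d := by exact_mod_cast hd.1
    have hdpos : (0 : ℝ) < d := by linarith
    have hdD : (d : ℝ) ≤ D := (Nat.le_floor_iff hDpos.le).1 hd.2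
    have hd4 : 4 ≤ d ^ 2 := by nlinarith [hd.1]
    -- pointwise
    have hpt : ∀ n ∈ N.filter (fun n => (dc n).2 = d),
        (1 / (n : ℝ)) * cm (fun p => 1 + 2 * (p * E.gs j i p)) n ≤
        (1 / 2 ^ i * a * (d : ℝ) ^ (1 / 2 : ℝ)) * B (dc n).1 := by
      intro n hn
      rw [mem_filter] at hn
      obtain ⟨h1, h2, h3, h4, h5⟩ := hNmem n hn.1
      have e := hdc1 n
      rw [hn.2] at e
      have hm0 : (dc n).1 ≠ 0 := (hdc2 n).ne_zero
      have hd0 : d ≠ 0 := by omega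
      have h6 : cm (fun p => 1 + 2 * (p * E.gs j i p)) n =
          (cm (fun p => 1 + 2 * (p * E.gs j i p)) d * cm (fun p => 1 + 2 * (p * E.gs j i p)) d) *
          cm (fun p => 1 + 2 * (p * E.gs j i p)) (dc n).1 := by
        rw [← cm_mul _ hd0 hd0, ← cm_mul _ (mul_ne_zero hd0 hd0) hm0, ← sq, e]
      have hS0 : ∀ p : ℕ, p.Prime → 0 ≤ 1 + 2 * (p * E.gs j i p) := by
        intro p _
        have := gs_nonneg' E j i p
        positivity
      have h7 : cm (fun p => 1 + 2 * (p * E.gs j i p)) d ≤ (d : ℝ) ^ (9 * E.δ) := by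
        apply cm_le_rpow hS0 _ hd0
        intro p hp
        refine le_trans ?_ (hf p hp)
        have := gs_le_g E j i p
        gcongr
      have h8 : 0 ≤ cm (fun p => 1 + 2 * (p * E.gs j i p)) d := cm_nonneg hS0 d
      have h9 : cm (fun p => 1 + 2 * (p * E.gs j i p)) d *
          cm (fun p => 1 + 2 * (p * E.gs j i p)) d ≤ (d : ℝ) ^ (1 / 2 : ℝ) := by
        calc cm (fun p => 1 + 2 * (p * E.gs j i p)) d *
            cm (fun p => 1 + 2 * (p * E.gs j i p)) d ≤ (d : ℝ) ^ (9 * E.δ) * (d : ℝ) ^ (9 * E.δ) :=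
              mul_le_mul h7 h7 h8 (by positivity)
          _ = (d : ℝ) ^ (9 * E.δ + 9 * E.δ) := by rw [Real.rpow_add hdpos]
          _ ≤ (d : ℝ) ^ (1 / 2 : ℝ) :=
              Real.rpow_le_rpow_of_exponent_le (by linarith) (by linarith)
      have hmn : (dc n).1 ≤ n := by
        have h10 : (dc n).1 ≤ d ^ 2 * (dc n).1 := Nat.le_mul_of_pos_left _ (by positivity)
        rw [e] at h10
        exact h10
      have h11 : cm (fun p => 1 + 2 * (p * E.gs j i p)) (dc n).1 ≤ a * B (dc n).1 := by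
        refine (prod_split E j i _ (hdc2 n)).trans ?_
        exact mul_le_mul_of_nonneg_right (hA' _ h5 (by omega)) (hB0 _)
      have hnR : (2 : ℝ) ^ i ≤ n := by
        have : 2 ^ i ≤ n := by omega
        exact_mod_cast this
      have h12 : 1 / (n : ℝ) ≤ 1 / 2 ^ i := one_div_le_one_div_of_le (by positivity) hnR
      have h13 : 0 ≤ cm (fun p => 1 + 2 * (p * E.gs j i p)) (dc n).1 := cm_nonneg hS0 _
      rw [h6]
      calc (1 / (n : ℝ)) * ((cm (fun p => 1 + 2 * (p * E.gs j i p)) d *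
            cm (fun p => 1 + 2 * (p * E.gs j i p)) d) *
            cm (fun p => 1 + 2 * (p * E.gs j i p)) (dc n).1) ≤
          (1 / 2 ^ i) * ((d : ℝ) ^ (1 / 2 : ℝ) * (a * B (dc n).1)) := by
            apply mul_le_mul h12 _ (mul_nonneg (mul_nonneg h8 h8) h13) (by positivity)
            exact mul_le_mul h9 h11 h13 (by positivity)
        _ = _ := by ring
    refine (sum_le_sum hpt).trans ?_
    rw [← mul_sum]
    -- the interval
    set A' := A / d ^ 2 with hA'd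
    set L' := h / d ^ 2 + 1 with hL'd
    have hAL : A' + L' ≤ 2 ^ (i + 1) := by
      have h1 : A' ≤ A / 4 := Nat.div_le_div_left hd4 (by norm_num)
      have h2 : h / d ^ 2 ≤ h / 4 := Nat.div_le_div_left hd4 (by norm_num)
      have h3 : 2 ^ (i + 1) = 2 * 2 ^ i := by ring
      have h4 : 1 ≤ 2 ^ i := Nat.one_le_two_pow
      omega
    have hd2pos : (0 : ℝ) < (d : ℝ) ^ 2 := by positivity
    have hratio : (2 : ℝ) ^ (3 / 10 * (i : ℝ)) ≤ h / (d : ℝ) ^ 2 := by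
      rw [le_div_iff₀ hd2pos]
      have h1 : (d : ℝ) ^ 2 ≤ (2 : ℝ) ^ (20 * E.δ * i) := by
        calc (d : ℝ) ^ 2 ≤ D ^ 2 := pow_le_pow_left₀ hdpos.le hdD 2
          _ = (2 : ℝ) ^ (20 * E.δ * i) := by
            rw [hD, sq, ← Real.rpow_add (by norm_num)]
            congr 1; ring
      have h2 : (2 : ℝ) ^ ((1 / 2 - E.δ) * i - 1) ≤ (h : ℝ) := Pool.Agent.W596.MO.le_hh E.δ i
      calc (2 : ℝ) ^ (3 / 10 * (i : ℝ)) * (d : ℝ) ^ 2 ≤
          (2 : ℝ) ^ (3 / 10 * (i : ℝ)) * (2 : ℝ) ^ (20 * E.δ * i) := by gcongr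
        _ = (2 : ℝ) ^ (3 / 10 * (i : ℝ) + 20 * E.δ * i) := by rw [Real.rpow_add (by norm_num)]
        _ ≤ (2 : ℝ) ^ ((1 / 2 - E.δ) * i - 1) := by
            apply Real.rpow_le_rpow_of_exponent_le (by norm_num)
            nlinarith
        _ ≤ h := h2
    have hone : (1 : ℝ) ≤ h / (d : ℝ) ^ 2 :=
      le_trans (Real.one_le_rpow (by norm_num) (by positivity)) hratio
    have hL1 : (h : ℝ) / (d : ℝ) ^ 2 ≤ L' := by
      have h1 := Nat.lt_div_mul_add (a := h) (b := d ^ 2) (by positivity)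
      rw [div_le_iff₀ hd2pos, hL'd]
      have h2 : (h : ℝ) < ((h / d ^ 2 * d ^ 2 + d ^ 2 : ℕ) : ℝ) := by exact_mod_cast h1
      push_cast at h2 ⊢
      linarith
    have hL2 : (L' : ℝ) ≤ 2 * (h / (d : ℝ) ^ 2) := by
      have h1 : ((h / d ^ 2 : ℕ) : ℝ) ≤ (h : ℝ) / ((d ^ 2 : ℕ) : ℝ) := Nat.cast_div_le
      rw [hL'd]
      push_cast at h1 ⊢
      linarith
    have hBsum := hB' A' L' hAL (hratio.trans hL1)
    have hinj : Set.InjOn (fun n => (dc n).1) (N.filter (fun n => (dc n).2 = d) : Finset ℕ) := by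
      intro n hn n' hn' he
      have h1 := (mem_filter.1 (mem_coe.1 hn)).2
      have h2 := (mem_filter.1 (mem_coe.1 hn')).2
      have e1 := hdc1 n
      have e2 := hdc1 n'
      simp only at he
      rw [h1] at e1
      rw [h2] at e2
      rw [← e1, ← e2, he]
    have himg : ∑ n ∈ N.filter (fun n => (dc n).2 = d), B (dc n).1 ≤
        ∑ m ∈ Ioc A' (A' + L'), B m := by
      have e : ∑ n ∈ N.filter (fun n => (dc n).2 = d), B (dc n).1 =
          ∑ m ∈ (N.filter (fun n => (dc n).2 = d)).image (fun n => (dc n).1), B m := by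
        rw [sum_image hinj]
      rw [e]
      apply sum_le_sum_of_subset_of_nonneg
      · intro m hm
        rw [mem_image] at hm
        obtain ⟨n, hn, rfl⟩ := hm
        rw [mem_filter] at hn
        obtain ⟨h1, h2, h3, h4, h5⟩ := hNmem n hn.1
        have e := hdc1 n
        rw [hn.2] at e
        have hdp : 0 < d ^ 2 := by positivity
        rw [mem_Ioc]
        constructor
        · rw [hA'd, Nat.div_lt_iff_lt_mul hdp, mul_comm, e]
          exact h1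
        · have e1 : A < d ^ 2 * (A / d ^ 2 + 1) := Nat.lt_mul_div_succ A hdp
          have e2 : h < d ^ 2 * (h / d ^ 2 + 1) := Nat.lt_mul_div_succ h hdp
          have e3 : d ^ 2 * (dc n).1 < d ^ 2 * (A / d ^ 2 + h / d ^ 2 + 2) := by
            calc d ^ 2 * (dc n).1 ≤ A + h := by rw [e]; exact h2
              _ < d ^ 2 * (A / d ^ 2 + 1) + d ^ 2 * (h / d ^ 2 + 1) := by omega
              _ = _ := by ring
          have e4 := Nat.lt_of_mul_lt_mul_left e3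
          omega
      · intro m _ _
        exact hB0 m
    have hexp : (d : ℝ) ^ (1 / 2 : ℝ) / (d : ℝ) ^ 2 = (d : ℝ) ^ (-(3 / 2) : ℝ) := by
      rw [← Real.rpow_natCast (d : ℝ) 2, ← Real.rpow_sub hdpos]
      congr 1
      norm_num
    calc (1 / 2 ^ i * a * (d : ℝ) ^ (1 / 2 : ℝ)) * ∑ n ∈ N.filter (fun n => (dc n).2 = d), B (dc n).1
        ≤ (1 / 2 ^ i * a * (d : ℝ) ^ (1 / 2 : ℝ)) * (5 * (2 * (h / (d : ℝ) ^ 2))) := by
          apply mul_le_mul_of_nonneg_left _ (by positivity)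
          refine himg.trans (hBsum.trans ?_)
          linarith
      _ = (1 / 2 ^ i * a * (10 * h)) * ((d : ℝ) ^ (1 / 2 : ℝ) / (d : ℝ) ^ 2) := by ring
      _ = _ := by rw [hexp]
  refine (sum_le_sum hd).trans ?_
  rw [← mul_sum]
  have h1 := hKle (Icc 2 ⌊D⌋₊)
  have h2 : (1 / 2 ^ i * a * (10 * h)) * ∑ d ∈ Icc 2 ⌊D⌋₊, (d : ℝ) ^ (-(3 / 2) : ℝ) ≤
      (1 / 2 ^ i * a * (10 * h)) * K := mul_le_mul_of_nonneg_left h1 (by positivity)
  refine h2.trans ?_
  have h4 : (h : ℝ) ≤ (2 : ℝ) ^ ((1 / 2 - E.δ) * i) :=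
    Pool.Agent.W683.MO.hh_le (δ_half E) i
  have h5 : (1 / 2 ^ i * a * (10 * h)) * K ≤
      (1 / 2 ^ i * a * (10 * (2 : ℝ) ^ ((1 / 2 - E.δ) * i))) * K := by
    gcongr
  refine h5.trans ?_
  have h6 : (1 / 2 ^ i * a * (10 * (2 : ℝ) ^ ((1 / 2 - E.δ) * i))) * K =
      10 * K / (i : ℝ) ^ 10 * E.w i := by
    unfold Env.w
    have e1 : (2 : ℝ) ^ (-(1 / 2 + E.δ / 2) * (i : ℝ)) * (2 : ℝ) ^ i =
      (2 : ℝ) ^ ((1 / 2 - E.δ) * i) * (2 : ℝ) ^ (E.δ / 2 * i) := exp_id1 E i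
    rw [ha]
    have e2 : (1 / 2 ^ i * ((2 : ℝ) ^ (E.δ / 2 * i) / (i : ℝ) ^ 50) *
        (10 * (2 : ℝ) ^ ((1 / 2 - E.δ) * i))) * K = 10 * K / (i : ℝ) ^ 50 *
        (((2 : ℝ) ^ ((1 / 2 - E.δ) * i) * (2 : ℝ) ^ (E.δ / 2 * i)) / 2 ^ i) := by ring
    rw [e2, ← e1]
    field_simp
  rw [h6]
  have h7 : 10 * K / (i : ℝ) ^ 10 ≤ 1 / 64 := by
    rw [div_le_div_iff₀ (by positivity) (by norm_num)]
    have e1 : (i : ℝ) ^ 1 ≤ (i : ℝ) ^ 10 := pow_le_pow_right₀ (by linarith) (by norm_num)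
    rw [pow_one] at e1
    linarith
  have h8 := w_nonneg E i
  have h9 := mul_le_mul_of_nonneg_right h7 h8
  linarith

end Pool.Agent.H421.CMO
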